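import Pool.Agent.P.MP_eb2ab9_co.Chains

/-!
The algebraic part: if all the complexes of faces containing a given face are exact below
`dim M`, then the skeletal complexes are ample.
-/

set_option autoImplicit false

open Finset ExteriorAlgebra

namespace Pool.Agent.P.MP_eb2ab9_co

variable {V : Type} [LinearOrder V] {M : Type} [AddCommGroup M] [Module ℝ M]

theorem faceWedge_insert_min (q : V → M) {m : V} {τ : Finset V} (h : ∀ w ∈ τ, m < w) :
    faceWedge q (insert m τ) = ι ℝ (q m) * faceWedge q τ := by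
  unfold faceWedge
  rw [sort_insert _ (fun b hb => (h b hb).le) fun hm => lt_irrefl _ (h m hm)]
  simp

theorem ι_mul_ι_mul (a b : M) (y : ExteriorAlgebra ℝ M) :
    ι ℝ a * (ι ℝ b * y) = -(ι ℝ b * (ι ℝ a * y)) := by
  rw [← mul_assoc, ← mul_assoc, ← neg_mul, eq_neg_of_add_eq_zero_left (ι_add_mul_swap a b)]

theorem mul_ι_mul_ι (a b : M) (y : ExteriorAlgebra ℝ M) :
    y * ι ℝ a * ι ℝ b = -(y * ι ℝ b * ι ℝ a) := by
  rw [mul_assoc, mul_assoc, ← mul_neg, eq_neg_of_add_eq_zero_left (ι_add_mul_swap a b)]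

theorem ι_mul_faceWedge (q : V → M) (x : V) (τ : Finset V) :
    ι ℝ (q x) * faceWedge q τ = if x ∈ τ then 0 else sg τ x • faceWedge q (insert x τ) := by
  induction τ using Finset.induction_on_min with
  | empty => simp [faceWedge, sg]
  | insert m τ hm ih =>
    have hmτ : m ∉ τ := fun h => lt_irrefl _ (hm m h)
    rw [faceWedge_insert_min q hm]
    rcases lt_trichotomy x m with h | h | h
    · have h1 : ∀ w ∈ insert m τ, x < w := fun w hw => by
        rcases mem_insert.mp hw with rfl | hw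
        · exact h
        · exact h.trans (hm w hw)
      rw [if_neg fun hx => lt_irrefl _ (h1 x hx), sg,
        filter_false_of_mem fun w hw => (h1 w hw).not_gt,
        faceWedge_insert_min q h1, faceWedge_insert_min q hm]
      simp
    · subst h
      rw [← mul_assoc, ι_sq_zero]; simp
    · rw [ι_mul_ι_mul, ih]
      by_cases hx : x ∈ τ
      · simp [hx]
      · have h2 : ∀ w ∈ insert x τ, m < w := fun w hw => by
          rcases mem_insert.mp hw with rfl | hw
          · exact h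
          · exact hm w hw
        rw [if_neg hx, if_neg (by simp [hx, h.ne']), sg_insert hmτ, if_pos h,
          insert_comm, faceWedge_insert_min q h2, mul_smul_comm, neg_smul]

theorem faceWedge_mul_ι (q : V → M) (a : M) (τ : Finset V) :
    faceWedge q τ * ι ℝ a = (-1 : ℤ) ^ τ.card • (ι ℝ a * faceWedge q τ) := by
  induction τ using Finset.induction_on_min with
  | empty => simp [faceWedge]
  | insert m τ hm ih =>
    have hmτ : m ∉ τ := fun h => lt_irrefl _ (hm m h)
    rw [faceWedge_insert_min q hm, mul_assoc, ih, mul_smul_comm, ι_mul_ι_mul,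
      card_insert_of_notMem hmτ, pow_succ, mul_neg_one, neg_smul, smul_neg]

theorem mul_ι_mem {r : ℕ} {ω : ExteriorAlgebra ℝ M} (h : ω ∈ ⋀[ℝ]^r M) (a : M) :
    ω * ι ℝ a ∈ ⋀[ℝ]^(r + 1) M :=
  Submodule.mul_mem_mul h (LinearMap.mem_range_self _ _)

theorem faceWedge_mem (q : V → M) (τ : Finset V) : faceWedge q τ ∈ ⋀[ℝ]^τ.card M := by
  induction τ using Finset.induction_on_min with
  | empty => simp [faceWedge]
  | insert m τ hm ih =>
    have hmτ : m ∉ τ := fun h => lt_irrefl _ (hm m h)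
    have h1 := faceWedge_mul_ι q (q m) τ
    have h2 : ι ℝ (q m) * faceWedge q τ = (-1 : ℤ) ^ τ.card • (faceWedge q τ * ι ℝ (q m)) := by
      rw [h1, smul_smul, ← pow_add, ← two_mul, pow_mul]; simp
    rw [faceWedge_insert_min q hm, card_insert_of_notMem hmτ, h2]
    exact Submodule.smul_of_tower_mem _ _ (mul_ι_mem ih _)

theorem contract_mem (φ : Module.Dual ℝ M) (r : ℕ) :
    ∀ ω ∈ ⋀[ℝ]^(r + 1) M, CliffordAlgebra.contractRight ω φ ∈ ⋀[ℝ]^r M := by
  induction r with
  | zero =>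
    intro ω hω
    refine Submodule.mul_induction_on hω ?_ ?_
    · rintro b hb _ ⟨a, rfl⟩
      obtain ⟨t, rfl⟩ := Submodule.mem_one.mp hb
      rw [CliffordAlgebra.contractRight_mul_ι, CliffordAlgebra.contractRight_algebraMap, zero_mul,
        sub_zero]
      exact Submodule.smul_mem _ _ hb
    · intro x y hx hy
      rw [map_add, LinearMap.add_apply]
      exact add_mem hx hy
  | succ r ih =>
    intro ω hω
    refine Submodule.mul_induction_on hω ?_ ?_
    · rintro b hb _ ⟨a, rfl⟩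
      rw [CliffordAlgebra.contractRight_mul_ι]
      exact sub_mem (Submodule.smul_mem _ _ hb) (mul_ι_mem (ih b hb) a)
    · intro x y hx hy
      rw [map_add, LinearMap.add_apply]
      exact add_mem hx hy

/-- division by a vector -/
theorem exists_div {r : ℕ} {ω : ExteriorAlgebra ℝ M} (hω : ω ∈ ⋀[ℝ]^(r + 1) M) (a : M)
    (φ : Module.Dual ℝ M) (hφ : φ a = 1) (ha : ω * ι ℝ a = 0) :
    ∃ ω' ∈ ⋀[ℝ]^r M, ω' * ι ℝ a = ω ∧ ∀ b, φ b = 0 → ω * ι ℝ b = 0 → ω' * ι ℝ b = 0 := by
  refine ⟨CliffordAlgebra.contractRight ω φ, contract_mem φ r ω hω, ?_, fun b hb hb' => ?_⟩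
  · have := CliffordAlgebra.contractRight_mul_ι (Q := (0 : QuadraticForm ℝ M)) φ a ω
    rw [hφ, one_smul] at this
    erw [ha] at this
    rw [map_zero, LinearMap.zero_apply] at this
    exact (sub_eq_zero.mp this.symm).symm
  · have := CliffordAlgebra.contractRight_mul_ι (Q := (0 : QuadraticForm ℝ M)) φ b ω
    rw [hb, zero_smul, zero_sub] at this
    erw [hb'] at this
    rw [map_zero, LinearMap.zero_apply] at this
    exact neg_eq_zero.mp this.symm

theorem eq_zero_of_finrank_lt [FiniteDimensional ℝ M] {r : ℕ} (h : Module.finrank ℝ M < r)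
    {ω : ExteriorAlgebra ℝ M} (hω : ω ∈ ⋀[ℝ]^r M) : ω = 0 := by
  have h1 : Module.finrank ℝ (⋀[ℝ]^r M) = 0 := by
    rw [exteriorPower.finrank_eq, Nat.choose_eq_zero_of_lt h]
  have h2 : Subsingleton (⋀[ℝ]^r M) := Module.finrank_zero_iff.mp h1
  exact congrArg Subtype.val (Subsingleton.elim (⟨ω, hω⟩ : ⋀[ℝ]^r M) 0)

/-- existence of dual functionals -/
def Indep (q : V → M) (σ : Finset V) : Prop :=
  ∀ u ∈ σ, ∃ φ : Module.Dual ℝ M, φ (q u) = 1 ∧ ∀ v ∈ σ, v ≠ u → φ (q v) = 0

omit [LinearOrder V] in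
theorem Indep.mono {q : V → M} {σ τ : Finset V} (h : Indep q σ) (hτ : τ ⊆ σ) : Indep q τ :=
  fun u hu => (h u (hτ hu)).imp fun _ hφ => ⟨hφ.1, fun v hv => hφ.2 v (hτ hv)⟩

theorem exists_div_face (q : V → M) (j : ℕ) (σ : Finset V) (h : Indep q σ) :
    ∀ ω ∈ ⋀[ℝ]^(j + σ.card) M, (∀ v ∈ σ, ω * ι ℝ (q v) = 0) →
      ∃ P ∈ ⋀[ℝ]^j M, P * faceWedge q σ = ω := by
  induction σ using Finset.induction_on with
  | empty => exact fun ω hω _ => ⟨ω, hω, by simp [faceWedge]⟩
  | insert x τ hx ih =>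
    intro ω hω hv
    rw [card_insert_of_notMem hx, ← add_assoc] at hω
    obtain ⟨φ, hφ, hφ'⟩ := h x (mem_insert_self x τ)
    obtain ⟨ω', h1, h2, h3⟩ := exists_div hω (q x) φ hφ (hv x (mem_insert_self x τ))
    obtain ⟨P, hP, hP'⟩ := ih (h.mono (subset_insert x τ)) ω' h1 fun v hvτ =>
      h3 _ (hφ' v (mem_insert_of_mem hvτ) fun hh => hx (hh ▸ hvτ)) (hv v (mem_insert_of_mem hvτ))
    refine ⟨((-1 : ℤ) ^ τ.card * sg τ x) • P, Submodule.smul_of_tower_mem _ _ hP, ?_⟩
    rw [← h2, ← hP', mul_assoc, faceWedge_mul_ι, ι_mul_faceWedge, if_neg hx, smul_smul,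
      mul_smul_comm, smul_mul_assoc]

variable [Fintype V]

/-- forms of degree `r` killed by the vectors `q v`, `v ∈ S` -/
def killed (q : V → M) (r : ℕ) (S : Finset V) : Submodule ℝ (ExteriorAlgebra ℝ M) where
  carrier := {ω | ω ∈ ⋀[ℝ]^r M ∧ ∀ v ∈ S, ω * ι ℝ (q v) = 0}
  zero_mem' := ⟨zero_mem _, fun _ _ => zero_mul _⟩
  add_mem' := fun ha hb => ⟨add_mem ha.1 hb.1, fun v hv => by rw [add_mul, ha.2 v hv, hb.2 v hv,
    add_zero]⟩
  smul_mem' := fun a c hc => ⟨Submodule.smul_mem _ _ hc.1, fun v hv => by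
    rw [smul_mul_assoc, hc.2 v hv, smul_zero]⟩

omit [Fintype V] [LinearOrder V] in
theorem killed_mono {q : V → M} {r : ℕ} {S T : Finset V} (h : S ⊆ T) {ω : ExteriorAlgebra ℝ M}
    (hω : ω ∈ killed q r T) : ω ∈ killed q r S :=
  ⟨hω.1, fun v hv => hω.2 v (h hv)⟩

theorem bdry_mul (c : Finset V → ExteriorAlgebra ℝ M) (a : ExteriorAlgebra ℝ M) (ρ : Finset V) :
    bdry (fun σ => c σ * a) ρ = bdry c ρ * a :=
  bdry_map (AddMonoidHom.mulRight a) c ρ

theorem main_induction [FiniteDimensional ℝ M] (Δ : Set (Finset V)) (hΔ : IsLowerSet Δ)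
    (q : V → M) (hq : ∀ σ ∈ Δ, σ.card ≤ Module.finrank ℝ M → Indep q σ)
    (hex : ∀ τ k, k < Module.finrank ℝ M → RelExact ℝ Δ τ k) (U : Finset V) :
    ∀ (τ : Finset V) (r k : ℕ), k < r → ∀ z : Finset V → ExteriorAlgebra ℝ M,
      (∀ σ, ¬ (σ ∈ Δ ∧ τ ⊆ σ ∧ σ.card = k) → z σ = 0) →
      (∀ σ, z σ ∈ killed q r (τ ∪ σ ∩ U)) → (∀ ρ, τ ⊆ ρ → bdry z ρ = 0) →
      ∃ y : Finset V → ExteriorAlgebra ℝ M,
        (∀ σ, ¬ (σ ∈ Δ ∧ τ ⊆ σ ∧ σ.card = k + 1) → y σ = 0) ∧
        (∀ σ, y σ ∈ killed q r (τ ∪ σ ∩ U)) ∧ ∀ ρ, τ ⊆ ρ → bdry y ρ = z ρ := by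
  induction U using Finset.induction_on with
  | empty =>
    intro τ r k hkr z hz hzk hz'
    by_cases hr : Module.finrank ℝ M < r
    · refine ⟨0, fun _ _ => rfl, fun σ => zero_mem _, fun ρ _ => ?_⟩
      rw [bdry_zero, eq_zero_of_finrank_lt hr (hzk ρ).1]; rfl
    · simp only [inter_empty, union_empty] at hzk ⊢
      obtain ⟨y, hy, hy'⟩ := (hex τ k (by omega)).vec (killed q r τ) (fun σ => ⟨z σ, hzk σ⟩)
        (fun σ hσ => Subtype.ext (hz σ hσ)) (fun ρ hρ => by
          have := bdry_map (killed q r τ).subtype.toAddMonoidHom (fun σ => ⟨z σ, hzk σ⟩) ρ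
          apply Subtype.ext
          exact this.symm.trans (hz' ρ hρ))
      refine ⟨fun σ => y σ, fun σ hσ => congrArg Subtype.val (hy σ hσ), fun σ => (y σ).2, fun ρ hρ => ?_⟩
      have := bdry_map (killed q r τ).subtype.toAddMonoidHom y ρ
      rw [hy' ρ hρ] at this
      exact this
  | insert u U hu ih =>
    intro τ r k hkr z hz hzk hz'
    have hsub : ∀ σ : Finset V, τ ∪ σ ∩ U ⊆ τ ∪ σ ∩ insert u U := fun σ =>
      union_subset_union_right (inter_subset_inter_left (subset_insert u U))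
    obtain ⟨y, hy, hyk, hy'⟩ := ih τ r k hkr z hz (fun σ => killed_mono (hsub σ) (hzk σ)) hz'
    by_cases huτ : u ∈ τ
    · refine ⟨y, hy, fun σ => killed_mono ?_ (hyk σ), hy'⟩
      intro v hv
      simp only [mem_union, mem_inter, mem_insert] at hv ⊢
      rcases hv with h | ⟨h, rfl | h'⟩
      · exact Or.inl h
      · exact Or.inl huτ
      · exact Or.inr ⟨h, h'⟩
    let y' : Finset V → ExteriorAlgebra ℝ M := fun σ => if u ∈ σ then y σ * ι ℝ (q u) else 0
    obtain ⟨w', hw', hw'k, hw''⟩ := ih (insert u τ) (r + 1) (k + 1) (by omega) y'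
      (fun σ hσ => by
        simp only [y']
        split_ifs with h
        · rw [hy σ fun hh => hσ ⟨hh.1, insert_subset h hh.2.1, hh.2.2⟩, zero_mul]
        · rfl)
      (fun σ => by
        simp only [y']
        split_ifs with h
        · refine ⟨mul_ι_mem (hyk σ).1 _, fun v hv => ?_⟩
          rw [insert_union, mem_insert] at hv
          rcases hv with rfl | hv
          · rw [mul_assoc, ι_sq_zero, mul_zero]
          · rw [mul_ι_mul_ι, (hyk σ).2 v hv, zero_mul, neg_zero]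
        · exact zero_mem _)
      (fun ρ hρ => by
        have huρ : u ∈ ρ := hρ (mem_insert_self u τ)
        rw [bdry_congr (c' := fun σ => y σ * ι ℝ (q u)) fun v _ => if_pos (mem_insert_of_mem huρ),
          bdry_mul, hy' ρ ((subset_insert u τ).trans hρ)]
        exact (hzk ρ).2 u (by simp [huρ]))
    have hdiv : ∀ σ, ∃ w, w ∈ killed q r (τ ∪ σ ∩ U) ∧ w * ι ℝ (q u) = w' σ ∧ (w' σ = 0 → w = 0) := by
      intro σ
      by_cases h0 : w' σ = 0
      · exact ⟨0, zero_mem _, by rw [zero_mul, h0], fun _ => rfl⟩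
      · have h1 : σ ∈ Δ ∧ insert u τ ⊆ σ ∧ σ.card = k + 1 + 1 := by
          by_contra hh; exact h0 (hw' σ hh)
        have h2 : ¬ Module.finrank ℝ M < r + 1 := fun hh =>
          h0 (eq_zero_of_finrank_lt hh (hw'k σ).1)
        obtain ⟨φ, hφ, hφ'⟩ := hq σ h1.1 (by omega) u (h1.2.1 (mem_insert_self u τ))
        obtain ⟨w, hw1, hw2, hw3⟩ := exists_div (hw'k σ).1 (q u) φ hφ ((hw'k σ).2 u (by simp))
        refine ⟨w, ⟨hw1, fun v hv => hw3 _ (hφ' v ?_ ?_) ((hw'k σ).2 v ?_)⟩, hw2,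
          fun hh => absurd hh h0⟩
        · rcases mem_union.mp hv with h | h
          · exact h1.2.1 (mem_insert_of_mem h)
          · exact (mem_inter.mp h).1
        · rintro rfl
          rcases mem_union.mp hv with h | h
          · exact huτ h
          · exact hu (mem_inter.mp h).2
        · rw [insert_union]; exact mem_insert_of_mem hv
    choose w hwk hwu hw0 using hdiv
    have hws : ∀ σ, ¬ (σ ∈ Δ ∧ σ.card = k + 1 + 1) → w σ = 0 := fun σ hσ =>
      hw0 σ (hw' σ fun hh => hσ ⟨hh.1, hh.2.2⟩)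
    have hbk : ∀ σ, bdry w σ ∈ killed q r (τ ∪ σ ∩ U) := fun σ => by
      rw [bdry_apply]
      refine Submodule.sum_mem _ fun v _ => Submodule.smul_of_tower_mem _ _ (killed_mono ?_ (hwk _))
      exact union_subset_union_right (inter_subset_inter_right (subset_insert v σ))
    refine ⟨fun σ => if τ ⊆ σ then y σ - bdry w σ else 0, fun σ hσ => ?_, fun σ => ?_,
      fun ρ hρ => ?_⟩
    · dsimp only
      split_ifs with h
      · rw [hy σ hσ, bdry_eq_zero_of hΔ hws σ fun hh => hσ ⟨hh.1, h, hh.2⟩, sub_zero]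
      · rfl
    · dsimp only
      split_ifs with h
      · have h1 := sub_mem (hyk σ) (hbk σ)
        refine ⟨h1.1, fun v hv => ?_⟩
        by_cases hvu : v = u
        · subst hvu
          have hvσ : v ∈ σ := by
            rcases mem_union.mp hv with h' | h'
            · exact h h'
            · exact (mem_inter.mp h').1
          have h2 := hw'' σ (insert_subset hvσ h)
          simp only [y', if_pos hvσ] at h2
          rw [sub_mul, ← bdry_mul, ← h2]
          simp only [hwu, sub_self]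
        · refine h1.2 v ?_
          simp only [mem_union, mem_inter, mem_insert] at hv ⊢
          tauto
      · exact zero_mem _
    · rw [bdry_congr (c' := y - bdry w) fun v _ => if_pos (hρ.trans (subset_insert v ρ)),
        bdry_sub, Pi.sub_apply, bdry_bdry, sub_zero, hy' ρ hρ]

theorem skelBdry_mul (q : V → M) (c : Finset V → ExteriorAlgebra ℝ M) (τ : Finset V) :
    skelBdry q c τ * faceWedge q τ = bdry (fun σ => c σ * faceWedge q σ) τ := by
  rw [bdry_apply, skelBdry, sum_mul]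
  refine sum_congr rfl fun x hx => ?_
  rw [mul_assoc, ι_mul_faceWedge, if_neg (mem_compl.mp hx), mul_smul_comm]

theorem ample_of_relExact [FiniteDimensional ℝ M] (Δ : Set (Finset V)) (hΔ : IsLowerSet Δ)
    (q : V → M) (hq : ∀ σ ∈ Δ, σ.card ≤ Module.finrank ℝ M → Indep q σ)
    (hex : ∀ τ k, k < Module.finrank ℝ M → RelExact ℝ Δ τ k) (r : ℕ) : IsSkeletalAmple Δ q r := by
  intro k j hr z hz hz'
  obtain ⟨y, hy, hyk, hy'⟩ := main_induction Δ hΔ q hq hex univ ∅ r k (by omega)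
    (fun σ => z σ * faceWedge q σ)
    (fun σ hσ => by rw [(hz σ).2 fun hh => hσ ⟨hh.1, empty_subset σ, hh.2⟩, zero_mul])
    (fun σ => by
      by_cases hσ : σ ∈ Δ ∧ σ.card = k
      · refine ⟨?_, fun v hv => ?_⟩
        · have := SetLike.mul_mem_graded (A := fun i : ℕ => ⋀[ℝ]^i M) (hz σ).1 (faceWedge_mem q σ)
          rwa [hσ.2, add_comm, hr] at this
        · rw [mul_assoc, faceWedge_mul_ι, ι_mul_faceWedge, if_pos (by simpa using hv), smul_zero,
            mul_zero]
      · rw [(hz σ).2 hσ, zero_mul]; exact zero_mem _)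
    (fun ρ _ => by
      have := hz' ρ
      rwa [Pi.zero_apply, sub_zero, skelBdry_mul] at this)
  have hdiv : ∀ σ, ∃ P, (P ∈ ⋀[ℝ]^j M ∧ (¬ (σ ∈ Δ ∧ σ.card = k + 1) → P = 0)) ∧
      P * faceWedge q σ = y σ := by
    intro σ
    by_cases h0 : y σ = 0
    · exact ⟨0, ⟨zero_mem _, fun _ => rfl⟩, by rw [zero_mul, h0]⟩
    · have h1 : σ ∈ Δ ∧ ∅ ⊆ σ ∧ σ.card = k + 1 := by
        by_contra hh; exact h0 (hy σ hh)
      have h2 : ¬ Module.finrank ℝ M < r := fun hh => h0 (eq_zero_of_finrank_lt hh (hyk σ).1)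
      obtain ⟨P, hP, hP'⟩ := exists_div_face q j σ (hq σ h1.1 (by omega)) (y σ)
        (by rw [h1.2.2, show j + (k + 1) = r by omega]; exact (hyk σ).1)
        fun v hv => (hyk σ).2 v (by simpa using hv)
      exact ⟨P, ⟨hP, fun hh => absurd ⟨h1.1, h1.2.2⟩ hh⟩, hP'⟩
  choose P hP hP' using hdiv
  refine ⟨P, hP, fun τ => ?_⟩
  rw [sub_mul, skelBdry_mul]
  simp only [hP']
  rw [hy' τ (empty_subset τ), sub_self]

omit [Fintype V] [LinearOrder V] in
theorem indep_of_affineIndependent {E : Type} [AddCommGroup E] [Module ℝ E] (p : V → E)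
    (σ : Finset V) (h : AffineIndependent ℝ fun v : σ => p v) :
    Indep (fun v => ((p v, 1) : E × ℝ)) σ := by
  have hli : LinearIndependent ℝ fun v : σ => ((p v, 1) : E × ℝ) := by
    rw [linearIndependent_iff']
    intro s g hg i hi
    have h1 := congrArg Prod.fst hg
    have h2 := congrArg Prod.snd hg
    simp only [Prod.fst_sum, Prod.snd_sum, Prod.smul_mk, smul_eq_mul, mul_one, Prod.fst_zero,
      Prod.snd_zero] at h1 h2
    exact affineIndependent_iff.mp h s g h2 h1 i hi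
  intro u hu
  have h1 := hli.notMem_span_image (s := {v | v ≠ ⟨u, hu⟩}) (x := ⟨u, hu⟩) (by simp)
  obtain ⟨f, hf, hf'⟩ := Submodule.exists_le_ker_of_notMem h1
  refine ⟨(f (p u, 1))⁻¹ • f, by simp [inv_mul_cancel₀ hf], fun v hv hvu => ?_⟩
  have : f (p v, 1) = 0 := hf' (Submodule.subset_span ⟨⟨v, hv⟩, by simpa using hvu, rfl⟩)
  simp [this]

end Pool.Agent.P.MP_eb2ab9_co
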