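import Pool.Agent.P.MP_eb2ab9_co.Topo

/-!
Triangulated balls: exactness of the complexes of faces containing a given face.
-/

set_option autoImplicit false

open Finset

namespace Pool.Agent.P.MP_eb2ab9_co

variable {V : Type} [Fintype V] [LinearOrder V]

omit [LinearOrder V] in
theorem IsBall.maps {Δ : Set (Finset V)} {n : ℕ} (h : IsBall Δ n) :
    ∃ (f : (V → ℝ) → EuclideanSpace ℝ (Fin n)) (g : EuclideanSpace ℝ (Fin n) → V → ℝ),
      ContinuousOn f (realization Δ) ∧ ContinuousOn g (Metric.closedBall 0 1) ∧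
      (∀ x ∈ realization Δ, f x ∈ Metric.closedBall 0 1 ∧ g (f x) = x) ∧
      ∀ y ∈ Metric.closedBall 0 1, g y ∈ realization Δ ∧ f (g y) = y := by
  classical
  obtain ⟨e⟩ := h
  refine ⟨fun x => if hx : x ∈ realization Δ then e ⟨x, hx⟩ else 0,
    fun y => if hy : y ∈ Metric.closedBall 0 1 then e.symm ⟨y, hy⟩ else 0, ?_, ?_, ?_, ?_⟩
  · rw [continuousOn_iff_continuous_domRestrict]
    refine (continuous_subtype_val.comp e.continuous).congr fun x => ?_
    simp [x.2]
  · rw [continuousOn_iff_continuous_domRestrict]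
    refine (continuous_subtype_val.comp e.symm.continuous).congr fun y => ?_
    obtain ⟨y, hy⟩ := y
    change _ = if hy : y ∈ Metric.closedBall 0 1 then ((e.symm ⟨y, hy⟩ : realization Δ) : V → ℝ)
      else 0
    rw [dif_pos hy]
    rfl
  · intro x hx
    simp only [dif_pos hx]
    refine ⟨(e ⟨x, hx⟩).2, ?_⟩
    rw [dif_pos (e ⟨x, hx⟩).2]
    simp
  · intro y hy
    simp only [dif_pos hy]
    refine ⟨(e.symm ⟨y, hy⟩).2, ?_⟩
    rw [dif_pos (e.symm ⟨y, hy⟩).2]
    simp

omit [LinearOrder V] in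
theorem IsBall.nonempty {Δ : Set (Finset V)} {n : ℕ} (h : IsBall Δ n) : Nonempty V := by
  obtain ⟨f, g, -, -, -, h4⟩ := h.maps
  obtain ⟨⟨_, h1, _⟩, _⟩ := h4 0 (by simp)
  by_contra hV
  rw [not_nonempty_iff] at hV
  simp at h1

theorem IsBall.absExact {Δ : Set (Finset V)} (hΔ : IsLowerSet Δ) {n : ℕ} (h : IsBall Δ n) (k : ℕ) :
    AbsExact Δ k := by
  have := h.nonempty
  obtain ⟨f, g, h1, h2, h3, h4⟩ := h.maps
  refine absExact_of_retract Δ hΔ k (Metric.closedBall 0 1) Set.univ (isCompact_closedBall _ _)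
    (convex_closedBall _ _) isOpen_univ f g h1 (fun x hx => ⟨(h3 x hx).1, trivial⟩)
    (h2.mono Set.inter_subset_left) (fun y hy => (h4 y hy.1).1) (fun x hx => (h3 x hx).2) ?_
  intro F _ hF
  refine ⟨0, fun l hl => ?_⟩
  rw [Set.inter_univ]
  refine hull_subset (convex_closedBall _ _) fun x hx => ?_
  rcases List.mem_cons.mp hx with rfl | hx
  · simp
  · exact ((hF l hl).2 (mem_hull hx)).1

theorem exists_apex {n k : ℕ} (hk : k < n) (b : EuclideanSpace ℝ (Fin n))
    (F : Set (List (EuclideanSpace ℝ (Fin n)))) (hF : F.Finite)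
    (h : ∀ l ∈ F, l.length = k ∧ hull l ⊆ Metric.closedBall 0 1 ∩ {b}ᶜ) :
    ∃ q, ∀ l ∈ F, hull (q :: l) ⊆ Metric.closedBall 0 1 ∩ {b}ᶜ := by
  classical
  let W : List (EuclideanSpace ℝ (Fin n)) → Submodule ℝ (EuclideanSpace ℝ (Fin n)) := fun l =>
    Submodule.span ℝ ((l.map (· - b)).toFinset : Set _)
  have hW : ∀ l ∈ F, W l ≠ ⊤ := fun l hl htop => by
    have h1 : Module.finrank ℝ (W l) ≤ k := by
      refine (finrank_span_finset_le_card _).trans ((List.toFinset_card_le _).trans ?_)
      simp [(h l hl).1]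
    rw [htop] at h1
    simp at h1
    omega
  have hd : Dense (⋂ l ∈ F, (fun y => y - b) ⁻¹' (W l : Set _)ᶜ) := by
    refine dense_biInter_of_isOpen (fun l _ => ?_) hF.countable fun l hl => ?_
    · exact (W l).closed_of_finiteDimensional.isOpen_compl.preimage (by fun_prop)
    · have h1 : Dense ((W l : Set (EuclideanSpace ℝ (Fin n)))ᶜ) := by
        rw [← interior_eq_empty_iff_dense_compl]
        by_contra hne
        exact hW l hl ((W l).eq_top_of_nonempty_interior' (Set.nonempty_iff_ne_empty.mpr hne))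
      exact h1.preimage (Homeomorph.subRight b).isOpenMap
  obtain ⟨q, hq1, hq2⟩ := hd.inter_open_nonempty (Metric.ball 0 1) Metric.isOpen_ball
    ⟨0, by simp⟩
  refine ⟨q, fun l hl => Set.subset_inter (hull_subset (convex_closedBall _ _) fun x hx => ?_) ?_⟩
  · rcases List.mem_cons.mp hx with rfl | hx
    · exact Metric.ball_subset_closedBall hq1
    · exact ((h l hl).2 (mem_hull hx)).1
  · have hq : q - b ∉ W l := Set.mem_iInter₂.mp hq2 l hl
    rintro y hy rfl
    have hset : {x | x ∈ q :: l} = insert q {x | x ∈ l} := by ext x; simp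
    rw [hull, hset] at hy
    by_cases hne : ({x | x ∈ l} : Set _).Nonempty
    · rw [convexHull_insert hne, mem_convexJoin] at hy
      obtain ⟨q', hq', x, hx, s, t, hs, ht, hst, hy⟩ := hy
      rw [Set.mem_singleton_iff.mp hq'] at hy
      have hxW : x - y ∈ W l := by
        have hc : Convex ℝ ((fun z => z - y) ⁻¹' (W l : Set _)) := by
          intro u hu v hv a c _ _ hac
          have : a • u + c • v - y = a • (u - y) + c • (v - y) := by
            rw [smul_sub, smul_sub, show a • u - a • y + (c • v - c • y)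
              = a • u + c • v - (a + c) • y by module, hac, one_smul]
          simp only [Set.mem_preimage, SetLike.mem_coe] at hu hv ⊢
          rw [this]
          exact add_mem (Submodule.smul_mem _ _ hu) (Submodule.smul_mem _ _ hv)
        exact hull_subset hc (fun z hz => Submodule.subset_span (by
          simp only [List.coe_toFinset, List.mem_map, Set.mem_ofPred_eq]
          exact ⟨z, hz, rfl⟩)) hx
      by_cases hs0 : s = 0
      · subst hs0
        rw [zero_add] at hst
        subst hst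
        rw [zero_smul, zero_add, one_smul] at hy
        exact ((h l hl).2 hx).2 hy
      · apply hq
        have e : s • (q - y) = -(t • (x - y)) := by
          have : s • (q - y) + t • (x - y) = (s • q + t • x) - (s + t) • y := by module
          rw [hy, hst, one_smul, sub_self] at this
          exact eq_neg_of_add_eq_zero_left this
        have : q - y = s⁻¹ • -(t • (x - y)) := by rw [← e, smul_smul, inv_mul_cancel₀ hs0, one_smul]
        rw [this]
        exact Submodule.smul_mem _ _ (neg_mem (Submodule.smul_mem _ _ hxW))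
    · rw [Set.not_nonempty_iff_eq_empty] at hne
      rw [hne, insert_empty_eq, convexHull_singleton, Set.mem_singleton_iff] at hy
      apply hq
      rw [hy, sub_self]
      exact zero_mem _

theorem IsBall.absExact_cost {Δ : Set (Finset V)} (hΔ : IsLowerSet Δ) {n : ℕ} (h : IsBall Δ n)
    {τ : Finset V} (hτ : τ ∈ Δ) (hne : τ.Nonempty) {k : ℕ} (hk : k < n) :
    AbsExact {σ | σ ∈ Δ ∧ ¬ τ ⊆ σ} k := by
  have := h.nonempty
  obtain ⟨f, g, h1, h2, h3, h4⟩ := h.maps
  have hc : (0 : ℝ) < τ.card := by exact_mod_cast hne.card_pos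
  let x₀ : V → ℝ := fun v => if v ∈ τ then 1 / (τ.card : ℝ) else 0
  have hx₀ : x₀ ∈ realization Δ := by
    refine ⟨fun v => ?_, ?_, τ, hτ, fun v hv => if_neg hv⟩
    · simp only [x₀]; split_ifs <;> positivity
    · simp only [x₀]
      rw [sum_ite_mem, univ_inter, sum_const, nsmul_eq_mul, mul_one_div_cancel hc.ne']
  let m : (V → ℝ) → ℝ := fun x => τ.inf' hne x
  have hm : Continuous m := Continuous.finset_inf'_apply hne fun v _ => continuous_apply v
  have hmle : ∀ x : V → ℝ, ∀ v ∈ τ, m x ≤ x v := fun x v hv => inf'_le _ hv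
  have hmlt : ∀ x ∈ realization Δ, x ≠ x₀ → 0 < 1 - τ.card * m x := by
    intro x hx hne'
    by_contra hh
    apply hne'
    have e1 : ∑ v, (x v - if v ∈ τ then m x else 0) = 1 - τ.card * m x := by
      rw [sum_sub_distrib, hx.2.1, sum_ite_mem, univ_inter, sum_const, nsmul_eq_mul]
    have e2 : ∀ v ∈ univ, 0 ≤ x v - if v ∈ τ then m x else 0 := fun v _ => by
      split_ifs with hv
      · linarith [hmle x v hv]
      · linarith [hx.1 v]
    have e3 := sum_nonneg e2
    have e4 : 1 - τ.card * m x = 0 := by linarith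
    have e5 := (sum_eq_zero_iff_of_nonneg e2).mp (e1.trans e4)
    ext v
    have e6 := e5 v (mem_univ v)
    simp only [x₀]
    split_ifs at e6 ⊢ with hv
    · rw [eq_div_iff hc.ne']; nlinarith
    · linarith
  let ρ : (V → ℝ) → V → ℝ := fun x v => (x v - if v ∈ τ then m x else 0) / (1 - τ.card * m x)
  have hsub : realization {σ | σ ∈ Δ ∧ ¬ τ ⊆ σ} ⊆ realization Δ := by
    rintro x ⟨a, b, σ, hσ, c⟩
    exact ⟨a, b, σ, hσ.1, c⟩
  have hm0 : ∀ x ∈ realization {σ | σ ∈ Δ ∧ ¬ τ ⊆ σ}, m x = 0 := by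
    rintro x ⟨a, _, σ, hσ, c⟩
    obtain ⟨v, hv, hvσ⟩ := not_subset.mp hσ.2
    refine le_antisymm (by simpa [c v hvσ] using hmle x v hv) ?_
    exact (le_inf'_iff hne _).mpr fun w _ => a w
  have hg : ∀ y ∈ Metric.closedBall (0 : EuclideanSpace ℝ (Fin n)) 1 ∩ {f x₀}ᶜ, g y ≠ x₀ := by
    intro y hy hh
    apply hy.2
    rw [← hh, (h4 y hy.1).2]; rfl
  have hlow : IsLowerSet {σ | σ ∈ Δ ∧ ¬ τ ⊆ σ} :=
    fun a b hba ha => ⟨hΔ hba ha.1, fun hh => ha.2 (hh.trans hba)⟩
  refine absExact_of_retract _ hlow k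
    (Metric.closedBall 0 1) {f x₀}ᶜ (isCompact_closedBall _ _) (convex_closedBall _ _)
    isOpen_compl_singleton f (fun y => ρ (g y)) (h1.mono hsub) (fun x hx => ⟨(h3 x (hsub hx)).1, ?_⟩)
    ?_ ?_ (fun x hx => ?_) fun F hF hF' => exists_apex hk _ F hF hF'
  · intro hh
    have e1 : x = x₀ := by
      rw [← (h3 x (hsub hx)).2, ← (h3 x₀ hx₀).2, Set.mem_singleton_iff.mp hh]
    have e2 := hm0 x hx
    obtain ⟨v, hv, hv'⟩ := exists_mem_eq_inf' hne x
    have e3 : x v = 0 := by rw [← hv']; exact e2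
    rw [e1] at e3
    simp only [x₀, if_pos hv] at e3
    exact absurd e3 (by positivity)
  · have hg2 := h2.mono (Set.inter_subset_left (t := {f x₀}ᶜ))
    refine continuousOn_pi.mpr fun v => ContinuousOn.div ?_ ?_ fun y hy => ?_
    · refine ((continuous_apply v).comp_continuousOn hg2).sub ?_
      split_ifs
      · exact hm.comp_continuousOn hg2
      · exact continuousOn_const
    · exact continuousOn_const.sub (continuousOn_const.mul (hm.comp_continuousOn hg2))
    · exact (hmlt _ (h4 y hy.1).1 (hg y hy)).ne'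
  · intro y hy
    have hx := (h4 y hy.1).1
    have hpos := hmlt _ hx (hg y hy)
    obtain ⟨a, b, σ, hσ, c⟩ := hx
    obtain ⟨v₀, hv₀, hv₀'⟩ := exists_mem_eq_inf' hne (g y)
    refine ⟨fun v => div_nonneg ?_ hpos.le, ?_, σ.erase v₀,
      ⟨hΔ (erase_subset v₀ σ) hσ, fun hh => notMem_erase v₀ σ (hh hv₀)⟩, fun v hv => ?_⟩
    · split_ifs with hv
      · linarith [hmle (g y) v hv]
      · linarith [a v]
    · simp only [ρ]
      rw [← sum_div, sum_sub_distrib, b, sum_ite_mem, univ_inter, sum_const, nsmul_eq_mul,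
        div_self hpos.ne']
    · simp only [ρ]
      rw [div_eq_zero_iff]
      left
      by_cases hvv : v = v₀
      · subst hvv
        rw [if_pos hv₀, sub_eq_zero]
        exact hv₀'.symm
      · have hvσ : v ∉ σ := fun hh => hv (mem_erase.mpr ⟨hvv, hh⟩)
        rw [c v hvσ]
        split_ifs with hvτ
        · have e1 := hmle (g y) v hvτ
          have e2 : 0 ≤ m (g y) := (le_inf'_iff hne _).mpr fun w _ => a w
          rw [c v hvσ] at e1
          linarith
        · simp
  · ext v
    simp only [ρ, (h3 x (hsub hx)).2, hm0 x hx]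
    simp

theorem relExact_of_ball {Δ : Set (Finset V)} (hΔ : IsLowerSet Δ) {n : ℕ} (h : IsBall Δ n)
    (τ : Finset V) (k : ℕ) (hk : k ≤ n) : RelExact ℤ Δ τ k := by
  by_cases hτ : τ ∈ Δ
  · rcases τ.eq_empty_or_nonempty with rfl | hne
    · exact relExact_empty (h.absExact hΔ k)
    · cases k with
      | zero => exact relExact_of_card_lt hne.card_pos
      | succ k => exact relExact_of_cost hΔ (h.absExact hΔ _) (h.absExact_cost hΔ hτ hne (by omega))
  · exact relExact_of_notMem hΔ hτ

end Pool.Agent.P.MP_eb2ab9_co
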