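import Pool.Agent.P.MP_eb2ab9_co.Defs

/-!
Basic facts on oriented simplicial chains: `∂∂ = 0`, cones, relative exactness, change of
coefficients, links.
-/

set_option autoImplicit false

open Finset

namespace Pool.Agent.P.MP_eb2ab9_co

variable {V : Type} [Fintype V] [LinearOrder V]

/-- the sign of `v` relative to `τ` -/
def sg (τ : Finset V) (v : V) : ℤ := (-1 : ℤ) ^ (τ.filter (· < v)).card

omit [Fintype V] in
theorem sg_mul_self (τ : Finset V) (v : V) : sg τ v * sg τ v = 1 := by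
  unfold sg; rw [← pow_add, ← two_mul, pow_mul]; simp

omit [Fintype V] in
theorem sg_insert {τ : Finset V} {w : V} (hw : w ∉ τ) (v : V) :
    sg (insert w τ) v = if w < v then -sg τ v else sg τ v := by
  unfold sg
  rw [filter_insert]
  split_ifs with h
  · rw [card_insert_of_notMem (by simp [hw]), pow_succ]; simp
  · rfl

omit [Fintype V] in
theorem sg_swap {τ : Finset V} {v w : V} (hv : v ∉ τ) (hw : w ∉ τ) (hvw : v ≠ w) :
    sg τ v * sg (insert v τ) w = -(sg τ w * sg (insert w τ) v) := by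
  rw [sg_insert hv, sg_insert hw]
  rcases lt_or_gt_of_ne hvw with h | h
  · rw [if_pos h, if_neg h.not_gt]; ring
  · rw [if_neg h.not_gt, if_pos h]; ring

omit [Fintype V] in
theorem sg_union {ρ τ : Finset V} (h : Disjoint ρ τ) (v : V) :
    sg (ρ ∪ τ) v = sg ρ v * sg τ v := by
  unfold sg
  rw [filter_union, card_union_of_disjoint (disjoint_filter_filter h), pow_add]

section coeff

variable {A B : Type} [AddCommGroup A] [AddCommGroup B]

theorem bdry_apply (c : Finset V → A) (τ : Finset V) :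
    bdry c τ = ∑ v ∈ τᶜ, sg τ v • c (insert v τ) := rfl

theorem bdry_map (φ : A →+ B) (c : Finset V → A) (τ : Finset V) :
    bdry (fun σ => φ (c σ)) τ = φ (bdry c τ) := by
  simp [bdry_apply, map_sum]

/-- the boundary as an additive map -/
def bdryHom (A : Type) [AddCommGroup A] : (Finset V → A) →+ (Finset V → A) where
  toFun := bdry
  map_zero' := by ext τ; simp [bdry_apply]
  map_add' c c' := by ext τ; simp [bdry_apply, sum_add_distrib]

theorem bdry_zero : bdry (0 : Finset V → A) = 0 := map_zero (bdryHom A)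

theorem bdry_add (c c' : Finset V → A) : bdry (c + c') = bdry c + bdry c' :=
  map_add (bdryHom A) c c'

theorem bdry_sub (c c' : Finset V → A) : bdry (c - c') = bdry c - bdry c' :=
  map_sub (bdryHom A) c c'

theorem bdry_neg (c : Finset V → A) : bdry (-c) = -bdry c := map_neg (bdryHom A) c

theorem bdry_congr {c c' : Finset V → A} {ρ : Finset V}
    (h : ∀ v, v ∉ ρ → c (insert v ρ) = c' (insert v ρ)) : bdry c ρ = bdry c' ρ := by
  rw [bdry_apply, bdry_apply]
  exact sum_congr rfl fun v hv => by rw [h v (mem_compl.mp hv)]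

theorem bdry_bdry (c : Finset V → A) (τ : Finset V) : bdry (bdry c) τ = 0 := by
  rw [bdry_apply]
  simp only [bdry_apply, smul_sum, smul_smul]
  have h1 : ∀ v ∈ τᶜ, ∑ w ∈ (insert v τ)ᶜ, (sg τ v * sg (insert v τ) w) • c (insert w (insert v τ))
      = ∑ w ∈ τᶜ, if v = w then 0 else
        (sg τ v * sg (insert v τ) w) • c (insert w (insert v τ)) := by
    intro v hv
    rw [compl_insert, ← sum_erase τᶜ (a := v) (by simp)]
    exact sum_congr rfl fun w hw => by rw [if_neg (mem_erase.mp hw).1.symm]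
  rw [sum_congr rfl h1, ← sum_product']
  refine sum_involution (fun p _ => p.swap) ?_ ?_ ?_ ?_
  · rintro ⟨v, w⟩ hp
    rw [mem_product] at hp
    by_cases h : v = w
    · simp [h]
    · simp only [Prod.swap_prod_mk]
      rw [if_neg h, if_neg (Ne.symm h), sg_swap (mem_compl.mp hp.1) (mem_compl.mp hp.2) h,
        insert_comm, neg_smul, neg_add_cancel]
  · rintro ⟨v, w⟩ _ h h'
    apply h
    simp only [Prod.swap_prod_mk, Prod.mk.injEq] at h'
    simp [h'.1]
  · rintro ⟨v, w⟩ hp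
    rw [mem_product] at hp ⊢
    exact ⟨hp.2, hp.1⟩
  · rintro ⟨v, w⟩ _
    rfl

theorem bdry_eq_zero_of {K : Set (Finset V)} (hK : IsLowerSet K) {k : ℕ} {c : Finset V → A}
    (hc : ∀ σ, ¬ (σ ∈ K ∧ σ.card = k + 1) → c σ = 0) (ρ : Finset V)
    (hρ : ¬ (ρ ∈ K ∧ ρ.card = k)) : bdry c ρ = 0 := by
  rw [bdry_apply]
  refine sum_eq_zero fun v hv => ?_
  rw [hc, smul_zero]
  rintro ⟨h1, h2⟩
  rw [card_insert_of_notMem (mem_compl.mp hv)] at h2
  exact hρ ⟨hK (subset_insert v ρ) h1, by omega⟩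

/-- the cone with apex `v` -/
def cone (v : V) (c : Finset V → A) : Finset V → A :=
  fun σ => if v ∈ σ then sg (σ.erase v) v • c (σ.erase v) else 0

theorem bdry_cone (v : V) (c : Finset V → A) : bdry (cone v c) = c - cone v (bdry c) := by
  ext τ
  rw [Pi.sub_apply, bdry_apply]
  by_cases hv : v ∈ τ
  · obtain ⟨ρ, hρ, rfl⟩ : ∃ ρ, v ∉ ρ ∧ τ = insert v ρ :=
      ⟨τ.erase v, notMem_erase v τ, (insert_erase hv).symm⟩
    simp only [cone, mem_insert, true_or, or_true, if_true, erase_insert hρ, bdry_apply]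
    rw [← add_sum_erase ρᶜ _ (mem_compl.mpr hρ), smul_add, smul_smul, sg_mul_self, one_smul,
      ← compl_insert, smul_sum, sub_add_cancel_left, ← sum_neg_distrib]
    refine sum_congr rfl fun w hw => ?_
    rw [mem_compl, mem_insert, not_or] at hw
    rw [insert_comm, erase_insert (by simp [hρ, Ne.symm hw.1]), smul_smul, smul_smul, ← neg_smul]
    congr 1
    have := sg_swap hρ hw.2 (Ne.symm hw.1)
    have h1 := sg_mul_self ρ v
    have h2 := sg_mul_self ρ w
    calc sg (insert v ρ) w * sg (insert w ρ) v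
        = (sg ρ v * sg ρ v) * (sg ρ w * sg ρ w) * (sg (insert v ρ) w * sg (insert w ρ) v) := by
          rw [h1, h2]; ring
      _ = (sg ρ v * sg (insert v ρ) w) * (sg ρ w * sg (insert w ρ) v) * (sg ρ v * sg ρ w) := by ring
      _ = -((sg ρ w * sg ρ w) * (sg (insert w ρ) v * sg (insert w ρ) v)) * (sg ρ v * sg ρ w) := by
          rw [this]; ring
      _ = -(sg ρ v * sg ρ w) := by rw [h2, sg_mul_self]; ring
  · simp only [cone, if_neg hv, sub_zero]
    rw [sum_eq_single v]
    · simp [erase_insert hv, smul_smul, sg_mul_self]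
    · intro w _ hwv
      rw [if_neg (by simp [hv, Ne.symm hwv]), smul_zero]
    · intro h; exact absurd (mem_compl.mpr hv) h

end coeff

/-- exactness, at the faces with `k` vertices, of the complex of faces containing `τ` -/
def RelExact (A : Type) [AddCommGroup A] (Δ : Set (Finset V)) (τ : Finset V) (k : ℕ) : Prop :=
  ∀ z : Finset V → A, (∀ σ, ¬ (σ ∈ Δ ∧ τ ⊆ σ ∧ σ.card = k) → z σ = 0) →
    (∀ ρ, τ ⊆ ρ → bdry z ρ = 0) →
    ∃ y : Finset V → A, (∀ σ, ¬ (σ ∈ Δ ∧ τ ⊆ σ ∧ σ.card = k + 1) → y σ = 0) ∧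
      ∀ ρ, τ ⊆ ρ → bdry y ρ = z ρ

theorem RelExact.rat {Δ : Set (Finset V)} {τ : Finset V} {k : ℕ} (h : RelExact ℤ Δ τ k) :
    RelExact ℚ Δ τ k := by
  intro z hz hz'
  let N : ℕ := ∏ σ, (z σ).den
  have hN : (N : ℚ) ≠ 0 := by
    simp only [N]
    exact_mod_cast prod_ne_zero_iff.mpr fun σ _ => (z σ).den_nz
  have hint : ∀ σ, ∃ m : ℤ, (m : ℚ) = N * z σ := fun σ => by
    obtain ⟨a, ha⟩ : (z σ).den ∣ N := dvd_prod_of_mem _ (mem_univ σ)
    refine ⟨a * (z σ).num, ?_⟩
    rw [ha]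
    push_cast
    rw [← Rat.den_mul_eq_num]; ring
  choose m hm using hint
  obtain ⟨y, hy, hy'⟩ := h m (fun σ hσ => by
      have := hm σ
      rw [hz σ hσ, mul_zero] at this
      exact_mod_cast this) (fun ρ hρ => by
      have h1 := bdry_map (Int.castAddHom ℚ) m ρ
      have h2 := bdry_map (AddMonoidHom.mulLeft (N : ℚ)) z ρ
      simp only [Int.coe_castAddHom, hm, AddMonoidHom.coe_mulLeft, hz' ρ hρ, mul_zero] at h1 h2
      rw [h2] at h1
      exact_mod_cast h1.symm)
  refine ⟨fun σ => (N : ℚ)⁻¹ * y σ, fun σ hσ => by simp [hy σ hσ], fun ρ hρ => ?_⟩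
  have h1 := bdry_map ((AddMonoidHom.mulLeft (N : ℚ)⁻¹).comp (Int.castAddHom ℚ)) y ρ
  simp only [AddMonoidHom.coe_comp, AddMonoidHom.coe_mulLeft, Int.coe_castAddHom,
    Function.comp_apply] at h1
  rw [h1, hy' ρ hρ, hm, ← mul_assoc, inv_mul_cancel₀ hN, one_mul]

theorem RelExact.vec {F : Type} [Field F] {Δ : Set (Finset V)} {τ : Finset V} {k : ℕ}
    (h : RelExact F Δ τ k) (A : Type) [AddCommGroup A] [Module F A] : RelExact A Δ τ k := by
  classical
  intro z hz hz'
  let b := Module.Basis.ofVectorSpace F A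
  have h1 := fun i => h (fun σ => b.coord i (z σ)) (fun σ hσ => by simp [hz σ hσ])
    (fun ρ hρ => by
      have := bdry_map (b.coord i).toAddMonoidHom z ρ
      simp only [LinearMap.toAddMonoidHom_coe] at this
      rw [this, hz' ρ hρ, map_zero])
  choose y hy hy' using h1
  let I := univ.biUnion fun σ => (b.repr (z σ)).support
  refine ⟨fun σ => ∑ i ∈ I, y i σ • b i, fun σ hσ => by simp [hy _ σ hσ], fun ρ hρ => ?_⟩
  have e1 : bdry (fun σ => ∑ i ∈ I, y i σ • b i) ρ = ∑ i ∈ I, bdry (y i) ρ • b i := by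
    simp only [bdry_apply, smul_sum, sum_smul, smul_assoc]
    exact sum_comm
  rw [e1, sum_congr rfl fun i _ => by rw [hy' i ρ hρ]]
  conv_rhs => rw [← b.linearCombination_repr (z ρ), Finsupp.linearCombination_apply]
  rw [Finsupp.sum_of_support_subset _ (subset_biUnion_of_mem
    (fun σ => (b.repr (z σ)).support) (mem_univ ρ)) (fun i a => a • b i) (fun i _ => zero_smul F _)]
  rfl

/-- absolute exactness over the integers -/
def AbsExact (K : Set (Finset V)) (k : ℕ) : Prop :=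
  ∀ z : Finset V → ℤ, IsSimplChain K k z → bdry z = 0 → ∃ y, IsSimplChain K (k + 1) y ∧ bdry y = z

theorem absExact_of_subsingleton {K : Set (Finset V)} {k : ℕ}
    (h : Subsingleton (redHomology K k)) : AbsExact K k := by
  intro z hz hz'
  have hmem : z ∈ cycles K k := AddSubgroup.subset_closure ⟨hz, hz'⟩
  have h0 : (QuotientAddGroup.mk ⟨z, hmem⟩ : redHomology K k) = 0 := Subsingleton.elim _ _
  rw [QuotientAddGroup.eq_zero_iff, AddSubgroup.mem_addSubgroupOf] at h0
  change z ∈ boundaries K k at h0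
  clear hmem hz hz'
  induction h0 using AddSubgroup.closure_induction with
  | mem x hx => exact hx
  | zero => exact ⟨0, fun _ _ => rfl, bdry_zero⟩
  | add a b _ _ ha hb =>
    obtain ⟨a', ha, rfl⟩ := ha
    obtain ⟨b', hb, rfl⟩ := hb
    exact ⟨a' + b', fun σ hσ => by simp [ha σ hσ, hb σ hσ], bdry_add _ _⟩
  | neg a _ ha =>
    obtain ⟨a', ha, rfl⟩ := ha
    exact ⟨-a', fun σ hσ => by simp [ha σ hσ], bdry_neg _⟩

theorem relExact_of_link {Δ : Set (Finset V)} {τ : Finset V} {k : ℕ}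
    (h : AbsExact (link Δ τ) k) : RelExact ℤ Δ τ (k + τ.card) := by
  intro z hz hz'
  let ε : Finset V → ℤ := fun ρ => ∏ w ∈ ρ, sg τ w
  have hε : ∀ ρ, ε ρ * ε ρ = 1 := fun ρ => by
    simp only [ε]
    rw [← prod_mul_distrib]
    exact prod_eq_one fun w _ => sg_mul_self τ w
  have key : ∀ (c : Finset V → ℤ) (ρ : Finset V), Disjoint ρ τ →
      bdry (fun σ => if Disjoint σ τ then ε σ * c (σ ∪ τ) else 0) ρ = ε ρ * bdry c (ρ ∪ τ) := by
    intro c ρ hρ
    rw [bdry_apply, bdry_apply, mul_sum, compl_union]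
    symm
    refine sum_subset_zero_on_sdiff inter_subset_left (fun v hv => ?_) fun v hv => ?_
    · simp only [mem_sdiff, mem_compl, mem_inter, not_and, not_not] at hv
      rw [if_neg, smul_zero]
      rw [disjoint_insert_left]
      exact fun hh => hh.1 (hv.2 hv.1)
    · simp only [mem_compl, mem_inter] at hv
      rw [if_pos (disjoint_insert_left.mpr ⟨hv.2, hρ⟩), sg_union hρ, insert_union]
      simp only [ε, prod_insert hv.1, smul_eq_mul]
      ring
  obtain ⟨y, hy, hy'⟩ := h (fun σ => if Disjoint σ τ then ε σ * z (σ ∪ τ) else 0)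
    (fun σ hσ => by
      dsimp only
      split_ifs with hd
      · rw [hz, mul_zero]
        rintro ⟨h1, _, h3⟩
        rw [card_union_of_disjoint hd] at h3
        exact hσ ⟨⟨hd, h1⟩, by omega⟩
      · rfl)
    (by
      ext ρ
      by_cases hρ : Disjoint ρ τ
      · rw [key z ρ hρ, hz' _ subset_union_right, mul_zero]; rfl
      · rw [bdry_apply]
        refine sum_eq_zero fun v _ => ?_
        rw [if_neg fun hh => hρ (disjoint_insert_left.mp hh).2, smul_zero])
  refine ⟨fun σ => if τ ⊆ σ then ε (σ \ τ) * y (σ \ τ) else 0, fun σ hσ => ?_, fun ρ hρ => ?_⟩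
  · dsimp only
    split_ifs with hs
    · rw [hy, mul_zero]
      rintro ⟨⟨_, h1⟩, h2⟩
      rw [sdiff_union_of_subset hs] at h1
      rw [card_sdiff_of_subset hs] at h2
      have := card_le_card hs
      exact hσ ⟨h1, hs, by omega⟩
    · rfl
  · have h1 := key (fun σ => if τ ⊆ σ then ε (σ \ τ) * y (σ \ τ) else 0) (ρ \ τ) sdiff_disjoint
    have h2 : (fun σ => if Disjoint σ τ then ε σ *
        (if τ ⊆ σ ∪ τ then ε ((σ ∪ τ) \ τ) * y ((σ ∪ τ) \ τ) else 0) else 0) = y := by
      ext σ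
      split_ifs with hd hs
      · rw [union_sdiff_cancel_right hd, ← mul_assoc, hε, one_mul]
      · exact absurd subset_union_right hs
      · exact (hy σ fun hh => hd hh.1.1).symm
    rw [h2, hy', sdiff_union_of_subset hρ] at h1
    simp only [if_pos (sdiff_disjoint : Disjoint (ρ \ τ) τ), sdiff_union_of_subset hρ] at h1
    have h3 := congrArg (ε (ρ \ τ) * ·) h1
    simp only [← mul_assoc, hε, one_mul] at h3
    exact h3.symm

theorem relExact_of_card_lt {A : Type} [AddCommGroup A] {Δ : Set (Finset V)} {τ : Finset V} {k : ℕ}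
    (h : k < τ.card) : RelExact A Δ τ k := by
  intro z hz _
  refine ⟨0, fun _ _ => rfl, fun ρ _ => ?_⟩
  rw [bdry_zero, hz ρ]
  · rfl
  · rintro ⟨_, h1, h2⟩
    have := card_le_card h1
    omega

theorem relExact_of_notMem {A : Type} [AddCommGroup A] {Δ : Set (Finset V)} (hΔ : IsLowerSet Δ)
    {τ : Finset V} {k : ℕ} (h : τ ∉ Δ) : RelExact A Δ τ k := by
  intro z hz _
  refine ⟨0, fun _ _ => rfl, fun ρ _ => ?_⟩
  rw [bdry_zero, hz ρ]
  · rfl
  · rintro ⟨h0, h1, _⟩
    exact h (hΔ h1 h0)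

theorem relExact_of_sphere {Δ : Set (Finset V)} (hΔ : IsLowerSet Δ) {n : ℕ}
    (h : IsHomologySphere Δ n) (τ : Finset V) (k : ℕ) (hk : k ≤ n) : RelExact ℤ Δ τ k := by
  by_cases hτ : τ ∈ Δ
  · by_cases hc : k < τ.card
    · exact relExact_of_card_lt hc
    · have := relExact_of_link (absExact_of_subsingleton ((h.2.2 τ hτ).2 (k - τ.card) (by omega)))
      rwa [Nat.sub_add_cancel (not_lt.mp hc)] at this
  · exact relExact_of_notMem hΔ hτ

/-- relative exactness from exactness of the complex and of the contrastar -/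
theorem relExact_of_cost {Δ : Set (Finset V)} (hΔ : IsLowerSet Δ) {τ : Finset V} {k : ℕ}
    (h1 : AbsExact Δ (k + 1)) (h2 : AbsExact {σ | σ ∈ Δ ∧ ¬ τ ⊆ σ} k) :
    RelExact ℤ Δ τ (k + 1) := by
  intro z hz hz'
  have hzc : IsSimplChain Δ (k + 1) z := fun σ hσ => hz σ fun hh => hσ ⟨hh.1, hh.2.2⟩
  obtain ⟨y, hy, hy'⟩ := h2 (bdry z) (fun ρ hρ => by
      by_cases hs : τ ⊆ ρ
      · exact hz' ρ hs
      · exact bdry_eq_zero_of hΔ hzc ρ fun hh => hρ ⟨⟨hh.1, hs⟩, hh.2⟩)
    (funext fun ρ => bdry_bdry z ρ)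
  obtain ⟨u, hu, hu'⟩ := h1 (z - y) (fun σ hσ => by
      rw [Pi.sub_apply, hzc σ hσ, hy σ fun hh => hσ ⟨hh.1.1, hh.2⟩, sub_zero])
    (by rw [bdry_sub, hy', sub_self])
  refine ⟨fun σ => if τ ⊆ σ then u σ else 0, fun σ hσ => ?_, fun ρ hρ => ?_⟩
  · dsimp only
    split_ifs with hs
    · exact hu σ fun hh => hσ ⟨hh.1, hs, hh.2⟩
    · rfl
  · rw [bdry_congr (c' := u) fun v _ => if_pos (hρ.trans (subset_insert v ρ)), hu', Pi.sub_apply,
      hy ρ fun hh => hh.1.2 hρ, sub_zero]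

theorem relExact_empty {Δ : Set (Finset V)} {k : ℕ} (h : AbsExact Δ k) : RelExact ℤ Δ ∅ k := by
  intro z hz hz'
  obtain ⟨y, hy, hy'⟩ := h z (fun σ hσ => hz σ fun hh => hσ ⟨hh.1, hh.2.2⟩)
    (funext fun ρ => hz' ρ (empty_subset ρ))
  exact ⟨y, fun σ hσ => hy σ fun hh => hσ ⟨hh.1, empty_subset σ, hh.2⟩, fun ρ _ => by rw [hy']⟩

end Pool.Agent.P.MP_eb2ab9_co
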