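import Mathlib

/-!
Definitions for skeletal rigidity of simplicial complexes.

A finite simplicial complex on the (finite, linearly ordered) vertex type `V` is a set `Δ` of
finsets which is closed under subsets and contains the empty face.  A face with `k` vertices has
dimension `k - 1`; chain groups are indexed by the number `k` of vertices.
-/

set_option autoImplicit false

open Finset ExteriorAlgebra

namespace Pool.Agent.P.MP_eb2ab9_co

variable {V : Type} [Fintype V] [LinearOrder V]

/-- The simplicial boundary on `A`-valued functions on the oriented simplices: the coefficient of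
`τ` in `∂ c` is `∑ (-1)^(position of v in τ ∪ {v}) c (τ ∪ {v})`. -/
def bdry {A : Type} [AddCommGroup A] (c : Finset V → A) : Finset V → A :=
  fun τ => ∑ v ∈ (τ)ᶜ, (-1 : ℤ) ^ (τ.filter (· < v)).card • c (insert v τ)

/-- `c` is an integral chain of `K` on the faces with `k` vertices (dimension `k - 1`). -/
def IsSimplChain (K : Set (Finset V)) (k : ℕ) (c : Finset V → ℤ) : Prop :=
  ∀ σ, ¬ (σ ∈ K ∧ σ.card = k) → c σ = 0

/-- The group of cycles on the faces with `k` vertices. -/
def cycles (K : Set (Finset V)) (k : ℕ) : AddSubgroup (Finset V → ℤ) :=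
  AddSubgroup.closure {c | IsSimplChain K k c ∧ bdry c = 0}

/-- The group of boundaries of chains on the faces with `k + 1` vertices. -/
def boundaries (K : Set (Finset V)) (k : ℕ) : AddSubgroup (Finset V → ℤ) :=
  AddSubgroup.closure {b | ∃ c, IsSimplChain K (k + 1) c ∧ bdry c = b}

/-- Reduced integral simplicial homology of `K` in dimension `k - 1`: cycles modulo boundaries. -/
abbrev redHomology (K : Set (Finset V)) (k : ℕ) : Type :=
  ↥(cycles K k) ⧸ (boundaries K k).addSubgroupOf (cycles K k)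

/-- The link of `σ` in `Δ`. -/
def link (Δ : Set (Finset V)) (σ : Finset V) : Set (Finset V) :=
  {ρ | Disjoint ρ σ ∧ ρ ∪ σ ∈ Δ}

/-- `Δ` is a simplicial homology `n`-sphere: it has dimension `n` and the link of every face `σ`
(including the empty face) has the integral homology of the sphere of dimension
`n - 1 - dim σ = (n + 1 - |σ|) - 1`. -/
def IsHomologySphere (Δ : Set (Finset V)) (n : ℕ) : Prop :=
  (∀ σ ∈ Δ, σ.card ≤ n + 1) ∧ (∃ σ ∈ Δ, σ.card = n + 1) ∧
    ∀ σ ∈ Δ, Nonempty (redHomology (link Δ σ) (n + 1 - σ.card) ≃+ ℤ) ∧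
      ∀ k, k ≠ n + 1 - σ.card → Subsingleton (redHomology (link Δ σ) k)

/-- The geometric realisation of `Δ`, in barycentric coordinates. -/
def realization (Δ : Set (Finset V)) : Set (V → ℝ) :=
  {x | (∀ v, 0 ≤ x v) ∧ ∑ v, x v = 1 ∧ ∃ σ ∈ Δ, ∀ v, v ∉ σ → x v = 0}

/-- `Δ` is a simplicial `n`-ball: its realisation is homeomorphic to the closed `n`-ball. -/
def IsBall (Δ : Set (Finset V)) (n : ℕ) : Prop :=
  Nonempty (Homeomorph ↥(realization Δ) ↥(Metric.closedBall (0 : EuclideanSpace ℝ (Fin n)) 1))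

variable {M : Type} [AddCommGroup M] [Module ℝ M]

/-- `σ̄`: the wedge product of the vectors `q v`, `v ∈ σ`, in increasing order of the vertices. -/
noncomputable def faceWedge (q : V → M) (σ : Finset V) : ExteriorAlgebra ℝ M :=
  ((σ.sort (· ≤ ·)).map fun v => ι ℝ (q v)).prod

/-- `c` represents an element of `⨁ W^j_σ`, the sum over the faces `σ` of `Δ` with `k` vertices,
where `W^j_σ = Λ^j M / {P | P ∧ σ̄ = 0}`: `c σ ∈ Λ^j M` is a representative of the coefficient of
`[σ]`. -/
def IsSkelChain (Δ : Set (Finset V)) (k j : ℕ) (c : Finset V → ExteriorAlgebra ℝ M) : Prop :=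
  ∀ σ, c σ ∈ ⋀[ℝ]^j M ∧ (¬ (σ ∈ Δ ∧ σ.card = k) → c σ = 0)

/-- `c` and `c'` represent the same element of `⨁ W_σ`. -/
def SkelEq (q : V → M) (c c' : Finset V → ExteriorAlgebra ℝ M) : Prop :=
  ∀ σ, (c σ - c' σ) * faceWedge q σ = 0

/-- The skeletal boundary `∂ (c·[σ]) = ∑_{x ∈ σ} (c ∧ q x)·[σ \ x]` on representatives: the
coefficient of `[τ]` in `∂ c` is `∑_{x ∉ τ} c (τ ∪ {x}) ∧ q x`. -/
noncomputable def skelBdry (q : V → M) (c : Finset V → ExteriorAlgebra ℝ M) :
    Finset V → ExteriorAlgebra ℝ M :=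
  fun τ => ∑ x ∈ (τ)ᶜ, c (insert x τ) * ι ℝ (q x)

/-- The skeletal `r`-rigidity complex of `Δ` for the vectors `q v` is `r`-ample: for all
`-1 ≤ i < r - 1` its homology `H_i` vanishes, i.e. every cycle in `C_i` is the boundary of a chain
in `C_{i+1}`.  Here `i = k - 1` and the coefficient degree in `C_i` is `r - 1 - i = j + 1`. -/
def IsSkeletalAmple (Δ : Set (Finset V)) (q : V → M) (r : ℕ) : Prop :=
  ∀ k j : ℕ, k + (j + 1) = r → ∀ z, IsSkelChain Δ k (j + 1) z → SkelEq q (skelBdry q z) 0 →
    ∃ y, IsSkelChain Δ (k + 1) j y ∧ SkelEq q (skelBdry q y) z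

end Pool.Agent.P.MP_eb2ab9_co
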