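import Mathlib

/-!
Ordered chains (formal integer combinations of lists), prisms, acyclicity of the Vietoris-Rips
complexes of convex sets, and subdivision operators.
-/

set_option autoImplicit false

namespace Pool.Agent.P.MP_eb2ab9_co

section general

variable {X Y Z : Type}

/-- ordered chains -/
abbrev LC (X : Type) : Type := List X →₀ ℤ

/-- generator -/
noncomputable def gen (l : List X) : LC X := Finsupp.single l 1

/-- linear extension -/
noncomputable def lext {N : Type} [AddCommGroup N] (f : List X → N) : LC X →ₗ[ℤ] N :=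
  Finsupp.linearCombination ℤ f

theorem lext_gen {N : Type} [AddCommGroup N] (f : List X → N) (l : List X) :
    lext f (gen l) = f l := by
  simp [lext, gen]

theorem lhom_eq {N : Type} [AddCommGroup N] {T T' : LC X →ₗ[ℤ] N}
    (h : ∀ l, T (gen l) = T' (gen l)) (c : LC X) : T c = T' c := by
  have : T = T' := by
    refine Finsupp.lhom_ext' fun l => ?_
    ext
    exact h l
  rw [this]

/-- chains supported on a set of lists -/
noncomputable def sp (S : Set (List X)) : Submodule ℤ (LC X) := Finsupp.supported ℤ ℤ S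

theorem gen_mem {S : Set (List X)} {l : List X} (h : l ∈ S) : gen l ∈ sp S :=
  Finsupp.single_mem_supported ℤ 1 h

theorem sp_mono {S T : Set (List X)} (h : S ⊆ T) {c : LC X} (hc : c ∈ sp S) : c ∈ sp T :=
  Finsupp.supported_mono h hc

theorem map_mem_of_sp {N : Type} [AddCommGroup N] {S : Set (List X)} (T : LC X →ₗ[ℤ] N)
    (P : Submodule ℤ N) (h : ∀ l ∈ S, T (gen l) ∈ P) {c : LC X} (hc : c ∈ sp S) : T c ∈ P := by
  rw [sp, Finsupp.supported_eq_span_single] at hc
  have : Submodule.span ℤ ((fun i => Finsupp.single i (1 : ℤ)) '' S) ≤ P.comap T := by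
    rw [Submodule.span_le]
    rintro _ ⟨l, hl, rfl⟩
    exact h l hl
  exact this hc

theorem eq_of_sp {N : Type} [AddCommGroup N] {S : Set (List X)} (T T' : LC X →ₗ[ℤ] N)
    (h : ∀ l ∈ S, T (gen l) = T' (gen l)) {c : LC X} (hc : c ∈ sp S) : T c = T' c := by
  have := map_mem_of_sp (T - T') ⊥ (fun l hl => by simp [h l hl]) hc
  simpa [sub_eq_zero] using this

theorem exists_finite_sp {S : Set (List X)} {c : LC X} (hc : c ∈ sp S) :
    ∃ F : Set (List X), F.Finite ∧ F ⊆ S ∧ c ∈ sp F :=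
  ⟨c.support, c.support.finite_toSet, hc, Finsupp.mem_supported_support ℤ c⟩

/-- cone -/
noncomputable def lcons (x : X) : LC X →ₗ[ℤ] LC X := lext fun l => gen (x :: l)

/-- push forward -/
noncomputable def lmap (f : X → Y) : LC X →ₗ[ℤ] LC Y := lext fun l => gen (l.map f)

theorem lcons_gen (x : X) (l : List X) : lcons x (gen l) = gen (x :: l) := lext_gen _ _

theorem lmap_gen (f : X → Y) (l : List X) : lmap f (gen l) = gen (l.map f) := lext_gen _ _

/-- boundary of a list -/
noncomputable def dl : List X → LC X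
  | [] => 0
  | x :: l => gen l - lcons x (dl l)

/-- boundary -/
noncomputable def ld : LC X →ₗ[ℤ] LC X := lext dl

theorem ld_gen (l : List X) : ld (gen l) = dl l := lext_gen _ _

theorem ld_lcons (x : X) (c : LC X) : ld (lcons x c) = c - lcons x (ld c) :=
  lhom_eq (T := ld ∘ₗ lcons x) (T' := LinearMap.id - lcons x ∘ₗ ld)
    (fun l => by simp [lcons_gen, ld_gen, dl]) c

theorem ld_ld (c : LC X) : ld (ld c) = 0 := by
  refine lhom_eq (T := ld ∘ₗ ld) (T' := 0) (fun l => ?_) c
  simp only [LinearMap.comp_apply, ld_gen, LinearMap.zero_apply]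
  induction l with
  | nil => simp [dl]
  | cons x l ih => rw [dl, map_sub, ld_lcons, ih, ld_gen]; simp

theorem lmap_lcons (f : X → Y) (x : X) (c : LC X) : lmap f (lcons x c) = lcons (f x) (lmap f c) :=
  lhom_eq (T := lmap f ∘ₗ lcons x) (T' := lcons (f x) ∘ₗ lmap f)
    (fun l => by simp [lcons_gen, lmap_gen]) c

theorem ld_lmap (f : X → Y) (c : LC X) : ld (lmap f c) = lmap f (ld c) := by
  refine lhom_eq (T := ld ∘ₗ lmap f) (T' := lmap f ∘ₗ ld) (fun l => ?_) c
  simp only [LinearMap.comp_apply, ld_gen, lmap_gen]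
  induction l with
  | nil => simp [dl]
  | cons x l ih => rw [List.map_cons, dl, dl, map_sub, lmap_gen, lmap_lcons, ih]

theorem lmap_lmap (f : X → Y) (g : Y → Z) (c : LC X) : lmap g (lmap f c) = lmap (g ∘ f) c :=
  lhom_eq (T := lmap g ∘ₗ lmap f) (T' := lmap (g ∘ f)) (fun l => by simp [lmap_gen]) c

theorem lmap_eq_self {S : Set (List X)} (f : X → X) (h : ∀ l ∈ S, ∀ x ∈ l, f x = x) {c : LC X}
    (hc : c ∈ sp S) : lmap f c = c :=
  eq_of_sp (lmap f) LinearMap.id (fun l hl => by
    rw [lmap_gen, LinearMap.id_apply, List.map_congr_left (g := id) (h l hl), List.map_id]) hc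

theorem dl_mem (l : List X) : dl l ∈ sp {l' | l'.Sublist l ∧ l'.length + 1 = l.length} := by
  induction l with
  | nil => exact zero_mem _
  | cons x l ih =>
    refine sub_mem (gen_mem ⟨List.sublist_cons_self x l, rfl⟩) (map_mem_of_sp _ _ ?_ ih)
    rintro l' ⟨h1, h2⟩
    rw [lcons_gen]
    exact gen_mem ⟨h1.cons_cons x, by simp [h2]⟩

/-- prism of a list -/
noncomputable def prl (f g : X → Y) : List X → LC Y
  | [] => 0
  | x :: l => gen (f x :: g x :: l.map g) - lcons (f x) (prl f g l)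

/-- prism operator -/
noncomputable def pr (f g : X → Y) : LC X →ₗ[ℤ] LC Y := lext (prl f g)

theorem pr_gen (f g : X → Y) (l : List X) : pr f g (gen l) = prl f g l := lext_gen _ _

theorem pr_lcons (f g : X → Y) (x : X) (c : LC X) :
    pr f g (lcons x c) = lcons (f x) (lcons (g x) (lmap g c)) - lcons (f x) (pr f g c) :=
  lhom_eq (T := pr f g ∘ₗ lcons x)
    (T' := lcons (f x) ∘ₗ lcons (g x) ∘ₗ lmap g - lcons (f x) ∘ₗ pr f g)
    (fun l => by simp [lcons_gen, lmap_gen, pr_gen, prl]) c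

theorem ld_pr (f g : X → Y) (c : LC X) :
    ld (pr f g c) + pr f g (ld c) = lmap g c - lmap f c := by
  refine lhom_eq (T := ld ∘ₗ pr f g + pr f g ∘ₗ ld) (T' := lmap g - lmap f) (fun l => ?_) c
  simp only [LinearMap.add_apply, LinearMap.comp_apply, LinearMap.sub_apply]
  induction l with
  | nil => simp [pr_gen, ld_gen, lmap_gen, prl, dl]
  | cons x l ih =>
    have h : ld (pr f g (gen l)) = lmap g (gen l) - lmap f (gen l) - pr f g (ld (gen l)) := by
      rw [← ih]; abel
    rw [← lcons_gen, pr_lcons, ld_lcons x, map_sub, map_sub, pr_lcons, ld_lcons, ld_lcons, ld_lcons,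
      h, lmap_lcons, lmap_lcons, ld_lmap]
    simp only [map_sub]
    abel

theorem prl_mem (f g : X → Y) (l : List X) :
    prl f g l ∈ sp {l' | l'.length = l.length + 1 ∧ ∀ y ∈ l', ∃ x ∈ l, y = f x ∨ y = g x} := by
  induction l with
  | nil => exact zero_mem _
  | cons x l ih =>
    refine sub_mem (gen_mem ⟨by simp, fun y hy => ?_⟩) (map_mem_of_sp _ _ ?_ ih)
    · simp only [List.mem_cons, List.mem_map] at hy
      rcases hy with h | h | ⟨a, ha, h⟩
      · exact ⟨x, by simp, Or.inl h⟩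
      · exact ⟨x, by simp, Or.inr h⟩
      · exact ⟨a, by simp [ha], Or.inr h.symm⟩
    · rintro l' ⟨h1, h2⟩
      rw [lcons_gen]
      refine gen_mem ⟨by simp [h1], fun y hy => ?_⟩
      rcases List.mem_cons.mp hy with h | h
      · exact ⟨x, by simp, Or.inl h⟩
      · obtain ⟨a, ha, h'⟩ := h2 y h
        exact ⟨a, by simp [ha], h'⟩

end general

section normed

variable {E : Type} [NormedAddCommGroup E] [NormedSpace ℝ E]

/-- lists of small diameter -/
def Fine (δ : ℝ) (l : List E) : Prop := ∀ x ∈ l, ∀ y ∈ l, dist x y ≤ δ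

/-- convex hull of a list -/
def hull (l : List E) : Set E := convexHull ℝ {x | x ∈ l}

theorem mem_hull {l : List E} {x : E} (h : x ∈ l) : x ∈ hull l := subset_convexHull ℝ _ h

theorem hull_subset {l : List E} {A : Set E} (hA : Convex ℝ A) (h : ∀ x ∈ l, x ∈ A) :
    hull l ⊆ A := convexHull_min h hA

theorem convex_hull (l : List E) : Convex ℝ (hull l) := convex_convexHull ℝ _

theorem isCompact_hull (l : List E) : IsCompact (hull l) :=
  (List.finite_toSet l).isCompact_convexHull ℝ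

theorem dist_le_of_hull {δ : ℝ} {l : List E} (h : Fine δ l) {x y : E} (hx : x ∈ hull l)
    (hy : y ∈ hull l) : dist x y ≤ δ := by
  have h1 : ∀ a ∈ l, ∀ b ∈ hull l, dist b a ≤ δ := fun a ha b hb =>
    hull_subset (convex_closedBall a δ) (fun c hc => h c hc a ha) hb
  exact hull_subset (convex_closedBall y δ) (fun c hc => by
    rw [Metric.mem_closedBall, dist_comm]; exact h1 c hc y hy) hx

theorem vr_acyclic {A : Set E} (hA : Convex ℝ A) {a : E} (ha : a ∈ A) {k : ℕ} {δ₀ δ : ℝ}
    (hδ₀ : 0 ≤ δ₀) (hδ : 0 < δ) {z : LC E}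
    (hz : z ∈ sp {l | l.length = k ∧ (∀ x ∈ l, x ∈ A) ∧ Fine δ₀ l}) (hz' : ld z = 0) :
    ∃ c ∈ sp {l | l.length = k + 1 ∧ (∀ x ∈ l, x ∈ A) ∧ Fine (δ₀ + δ) l}, ld c = z := by
  obtain ⟨F, hF, hFS, hzF⟩ := exists_finite_sp hz
  have hfin : (⋃ l ∈ F, {x | x ∈ l}).Finite := hF.biUnion fun l _ => List.finite_toSet l
  obtain ⟨R, hR⟩ := (Metric.isBounded_iff_subset_closedBall a).mp hfin.isBounded
  obtain ⟨N, hN⟩ := exists_nat_gt (max R 0 / δ)
  have hN0 : (0 : ℝ) < N := lt_of_le_of_lt (div_nonneg (le_max_right _ _) hδ.le) hN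
  have hRN : R / N ≤ δ := by
    rw [div_le_iff₀ hN0]
    rw [div_lt_iff₀ hδ] at hN
    nlinarith [le_max_left R 0]
  let f : ℕ → E → E := fun i x => x + ((i : ℝ) / N) • (a - x)
  have hfA : ∀ i ≤ N, ∀ x ∈ A, f i x ∈ A := fun i hi x hx =>
    hA.add_smul_sub_mem hx ha ⟨by positivity, (div_le_one hN0).mpr (by exact_mod_cast hi)⟩
  have hf1 : ∀ i ≤ N, ∀ x y, dist (f i x) (f i y) ≤ dist x y := fun i hi x y => by
    have h1 : (i : ℝ) / N ≤ 1 := (div_le_one hN0).mpr (by exact_mod_cast hi)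
    have h2 : (0 : ℝ) ≤ i / N := by positivity
    have : f i x - f i y = (1 - (i : ℝ) / N) • (x - y) := by
      simp only [f]; module
    rw [dist_eq_norm, dist_eq_norm, this, norm_smul, Real.norm_of_nonneg (by linarith)]
    nlinarith [norm_nonneg (x - y)]
  have hf2 : ∀ i x, dist x a ≤ R → dist (f i x) (f (i + 1) x) ≤ δ := fun i x hx => by
    have : f i x - f (i + 1) x = ((1 : ℝ) / N) • (x - a) := by
      simp only [f]; push_cast; rw [add_div]; module
    rw [dist_eq_norm, this, norm_smul, Real.norm_of_nonneg (by positivity), ← dist_eq_norm]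
    calc 1 / (N : ℝ) * dist x a ≤ 1 / N * R := by gcongr
      _ = R / N := by ring
      _ ≤ δ := hRN
  have key : ∀ i ≤ N, ∃ c ∈ sp {l | l.length = k + 1 ∧ (∀ x ∈ l, x ∈ A) ∧ Fine (δ₀ + δ) l},
      ld c = z - lmap (f i) z := by
    intro i
    induction i with
    | zero =>
      intro _
      refine ⟨0, zero_mem _, ?_⟩
      rw [map_zero, lmap_eq_self (f 0) (fun l _ x _ => by simp [f]) hz, sub_self]
    | succ i ih =>
      intro hi
      obtain ⟨c, hc, hc'⟩ := ih (by omega)
      have h1 := ld_pr (f i) (f (i + 1)) z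
      rw [hz', map_zero, add_zero] at h1
      refine ⟨c - pr (f i) (f (i + 1)) z, sub_mem hc (map_mem_of_sp _ _ ?_ hzF), ?_⟩
      · intro l hl
        obtain ⟨h2, h3, h4⟩ := hFS hl
        rw [pr_gen]
        refine sp_mono ?_ (prl_mem _ _ l)
        rintro l' ⟨h5, h6⟩
        refine ⟨by rw [h5, h2], fun y hy => ?_, fun y hy y' hy' => ?_⟩
        · obtain ⟨x, hx, rfl | rfl⟩ := h6 y hy
          · exact hfA i (by omega) x (h3 x hx)
          · exact hfA (i + 1) hi x (h3 x hx)
        · have hRx : ∀ x ∈ l, dist x a ≤ R := fun x hx =>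
            hR (Set.mem_biUnion hl (show x ∈ {x | x ∈ l} from hx))
          obtain ⟨x, hx, hxy⟩ := h6 y hy
          obtain ⟨x', hx', hxy'⟩ := h6 y' hy'
          have h7 := h4 x hx x' hx'
          rcases hxy with rfl | rfl <;> rcases hxy' with rfl | rfl
          · linarith [hf1 i (by omega) x x']
          · linarith [dist_triangle (f i x) (f i x') (f (i + 1) x'), hf1 i (by omega) x x',
              hf2 i x' (hRx x' hx')]
          · linarith [dist_triangle (f (i + 1) x) (f i x) (f i x'), hf1 i (by omega) x x',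
              hf2 i x (hRx x hx), dist_comm (f i x) (f (i + 1) x)]
          · linarith [hf1 (i + 1) hi x x']
      · rw [map_sub, hc', h1]; abel
  obtain ⟨c, hc, hc'⟩ := key N le_rfl
  refine ⟨c + lcons a (lmap (f N) z), add_mem hc
    (map_mem_of_sp (lcons a ∘ₗ lmap (f N)) _ ?_ hz), ?_⟩
  · rintro l ⟨h1, _, _⟩
    rw [LinearMap.comp_apply, lmap_gen, lcons_gen]
    have h4 : ∀ y ∈ a :: l.map (f N), y = a := fun y hy => by
      rcases List.mem_cons.mp hy with h | h
      · exact h
      · obtain ⟨x, _, rfl⟩ := List.mem_map.mp h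
        simp [f, div_self hN0.ne']
    refine gen_mem ⟨by simp [h1], fun y hy => by rw [h4 y hy]; exact ha, fun y hy y' hy' => ?_⟩
    rw [h4 y hy, h4 y' hy', dist_self]; linarith
  · rw [map_add, hc', ld_lcons, ld_lmap, hz']; simp

theorem exists_subdivision' {δ : ℝ} (hδ : 0 < δ) (k : ℕ) :
    ∃ Sd H : LC E →ₗ[ℤ] LC E, ∀ l : List E, l.length ≤ k →
      ld (Sd (gen l)) = Sd (ld (gen l)) ∧ ld (H (gen l)) + H (ld (gen l)) = Sd (gen l) - gen l ∧
      Sd (gen l) ∈ sp {l' | l'.length = l.length ∧ (∀ x ∈ l', x ∈ hull l) ∧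
        Fine (l.length * δ) l'} ∧
      H (gen l) ∈ sp {l' | l'.length = l.length + 1 ∧ ∀ x ∈ l', x ∈ hull l} := by
  induction k with
  | zero =>
    refine ⟨LinearMap.id, 0, fun l hl => ?_⟩
    obtain rfl : l = [] := List.length_eq_zero_iff.mp (by omega)
    exact ⟨rfl, by simp, gen_mem ⟨rfl, by simp, by simp [Fine]⟩, zero_mem _⟩
  | succ k ih =>
    obtain ⟨Sd, H, h⟩ := ih
    have hdl : ∀ l : List E, l.length ≤ k + 1 → ld (gen l) ∈ sp {l' : List E | l'.length ≤ k} := by
      intro l hl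
      rw [ld_gen]
      exact sp_mono (fun l' hl' => by have := hl'.2; simp only [Set.mem_ofPred_eq]; omega) (dl_mem l)
    have hSd : ∀ c ∈ sp {l' : List E | l'.length ≤ k}, ld (Sd c) = Sd (ld c) := fun c hc =>
      eq_of_sp (ld ∘ₗ Sd) (Sd ∘ₗ ld) (fun l hl => (h l hl).1) hc
    have hH : ∀ c ∈ sp {l' : List E | l'.length ≤ k}, ld (H c) + H (ld c) = Sd c - c :=
      fun c hc => eq_of_sp (ld ∘ₗ H + H ∘ₗ ld) (Sd - LinearMap.id) (fun l hl => (h l hl).2.1) hc
    have hsub : ∀ l l' : List E, l'.Sublist l → hull l' ⊆ hull l := fun l l' hl =>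
      hull_subset (convex_hull l) fun x hx => mem_hull (hl.subset hx)
    have hex : ∀ l : List E, ∃ c h' : LC E, l.length = k + 1 →
        ld c = Sd (ld (gen l)) ∧ ld h' + H (ld (gen l)) = c - gen l ∧
        c ∈ sp {l' | l'.length = l.length ∧ (∀ x ∈ l', x ∈ hull l) ∧ Fine (l.length * δ) l'} ∧
        h' ∈ sp {l' | l'.length = l.length + 1 ∧ ∀ x ∈ l', x ∈ hull l} := by
      intro l
      by_cases hl : l.length = k + 1
      swap
      · exact ⟨0, 0, fun hh => absurd hh hl⟩
      obtain ⟨x, hx⟩ : ∃ x, x ∈ l := List.exists_mem_of_length_pos (by omega)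
      have h1 : Sd (ld (gen l)) ∈
          sp {l' | l'.length = k ∧ (∀ x ∈ l', x ∈ hull l) ∧ Fine (k * δ) l'} := by
        rw [ld_gen]
        refine map_mem_of_sp _ _ ?_ (dl_mem l)
        rintro l' ⟨h2, h3⟩
        have h4 : l'.length = k := by omega
        refine sp_mono ?_ (h l' h4.le).2.2.1
        rintro l'' ⟨h5, h6, h7⟩
        exact ⟨h5.trans h4, fun y hy => hsub l l' h2 (h6 y hy), h4 ▸ h7⟩
      obtain ⟨c, hc, hc'⟩ := vr_acyclic (convex_hull l) (mem_hull hx) (by positivity) hδ h1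
        (by rw [hSd _ (hdl l hl.le), ld_ld, map_zero])
      have hc2 : c ∈ sp {l' | l'.length = l.length ∧ (∀ x ∈ l', x ∈ hull l) ∧
          Fine (l.length * δ) l'} := by
        rw [hl]; push_cast; rw [add_mul, one_mul]; exact hc
      refine ⟨c, lcons x (c - gen l - H (ld (gen l))), fun _ => ⟨hc', ?_, hc2, ?_⟩⟩
      · have h2 := hH _ (hdl l hl.le)
        rw [ld_ld, map_zero, add_zero] at h2
        have h3 : ld (c - gen l - H (ld (gen l))) = 0 := by
          rw [map_sub, map_sub, hc', h2, sub_self]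
        rw [ld_lcons, h3]
        simp
      · have h2 : c - gen l - H (ld (gen l)) ∈
            sp {l' | l'.length = l.length ∧ ∀ x ∈ l', x ∈ hull l} := by
          refine sub_mem (sub_mem (sp_mono (fun l' hl' => And.intro hl'.1 hl'.2.1) hc2)
            (gen_mem ⟨rfl, fun y hy => mem_hull hy⟩)) ?_
          rw [ld_gen]
          refine map_mem_of_sp _ _ ?_ (dl_mem l)
          rintro l' ⟨h2, h3⟩
          refine sp_mono ?_ (h l' (by omega)).2.2.2
          rintro l'' ⟨h5, h6⟩
          exact ⟨h5.trans h3, fun y hy => hsub l l' h2 (h6 y hy)⟩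
        refine map_mem_of_sp _ _ ?_ h2
        rintro l' ⟨h3, h4⟩
        rw [lcons_gen]
        refine gen_mem ⟨by simp [h3], fun y hy => ?_⟩
        rcases List.mem_cons.mp hy with rfl | hy
        · exact mem_hull hx
        · exact h4 y hy
    choose c h' hc using hex
    let Sd' : LC E →ₗ[ℤ] LC E := lext fun l => if l.length = k + 1 then c l else Sd (gen l)
    let H' : LC E →ₗ[ℤ] LC E := lext fun l => if l.length = k + 1 then h' l else H (gen l)
    have e1 : ∀ z ∈ sp {l' : List E | l'.length ≤ k}, Sd' z = Sd z := fun z hz =>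
      eq_of_sp _ _ (fun l hl => by
        rw [lext_gen, if_neg (by simp only [Set.mem_ofPred_eq] at hl; omega)]) hz
    have e2 : ∀ z ∈ sp {l' : List E | l'.length ≤ k}, H' z = H z := fun z hz =>
      eq_of_sp _ _ (fun l hl => by
        rw [lext_gen, if_neg (by simp only [Set.mem_ofPred_eq] at hl; omega)]) hz
    refine ⟨Sd', H', fun l hl => ?_⟩
    rw [e1 _ (hdl l hl), e2 _ (hdl l hl)]
    by_cases hk : l.length = k + 1
    · have f1 : Sd' (gen l) = c l := by rw [lext_gen, if_pos hk]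
      have f2 : H' (gen l) = h' l := by rw [lext_gen, if_pos hk]
      rw [f1, f2]
      exact hc l hk
    · have hl' : l.length ≤ k := by omega
      rw [e1 _ (gen_mem hl'), e2 _ (gen_mem hl')]
      exact h l hl'

theorem exists_subdivision {δ : ℝ} (hδ : 0 < δ) (k : ℕ) :
    ∃ Sd H : LC E →ₗ[ℤ] LC E,
      (∀ c ∈ sp {l : List E | l.length ≤ k}, ld (Sd c) = Sd (ld c)) ∧
      (∀ c ∈ sp {l : List E | l.length ≤ k}, ld (H c) + H (ld c) = Sd c - c) ∧
      (∀ l : List E, l.length ≤ k →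
        Sd (gen l) ∈ sp {l' | l'.length = l.length ∧ (∀ x ∈ l', x ∈ hull l) ∧ Fine δ l'}) ∧
      ∀ l : List E, l.length ≤ k →
        H (gen l) ∈ sp {l' | l'.length = l.length + 1 ∧ ∀ x ∈ l', x ∈ hull l} := by
  obtain ⟨Sd, H, h⟩ := exists_subdivision' (E := E) (δ := δ / (k + 1)) (by positivity) k
  refine ⟨Sd, H, fun c hc => eq_of_sp (ld ∘ₗ Sd) (Sd ∘ₗ ld) (fun l hl => (h l hl).1) hc,
    fun c hc => eq_of_sp (ld ∘ₗ H + H ∘ₗ ld) (Sd - LinearMap.id) (fun l hl => (h l hl).2.1) hc,
    fun l hl => sp_mono ?_ (h l hl).2.2.1, fun l hl => (h l hl).2.2.2⟩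
  rintro l' ⟨h1, h2, h3⟩
  refine ⟨h1, h2, fun x hx y hy => (h3 x hx y hy).trans ?_⟩
  have : (l.length : ℝ) ≤ k + 1 := by exact_mod_cast hl.trans (Nat.le_succ k)
  calc (l.length : ℝ) * (δ / (k + 1)) ≤ (k + 1) * (δ / (k + 1)) := by gcongr
    _ = δ := by field_simp

end normed

end Pool.Agent.P.MP_eb2ab9_co
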