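import Pool.Agent.P.MP_eb2ab9_co.Chains
import Pool.Agent.P.MP_eb2ab9_co.Lists

/-!
From topology to simplicial exactness: a complex whose realisation is a retract of a relatively
open subset of a compact convex set in which small cones exist is exact.
-/

set_option autoImplicit false

open Finset

namespace Pool.Agent.P.MP_eb2ab9_co

variable {V : Type} [Fintype V] [LinearOrder V]

/-- `bdry` as a linear map -/
def bdryL : (Finset V → ℤ) →ₗ[ℤ] (Finset V → ℤ) := (bdryHom ℤ).toIntLinearMap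

/-- `cone` as a linear map -/
def coneL (v : V) : (Finset V → ℤ) →ₗ[ℤ] (Finset V → ℤ) where
  toFun := cone v
  map_add' c c' := by ext σ; simp only [cone, Pi.add_apply]; split_ifs <;> simp [mul_add]
  map_smul' a c := by
    ext σ; simp only [cone, Pi.smul_apply, RingHom.id_apply]; split_ifs <;> simp [mul_left_comm]

/-- the oriented chain of a list -/
def orl : List V → Finset V → ℤ
  | [] => fun σ => if σ = ∅ then 1 else 0
  | v :: l => cone v (orl l)

/-- the map from ordered chains to oriented chains -/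
noncomputable def ori : LC V →ₗ[ℤ] (Finset V → ℤ) := lext orl

omit [Fintype V] in
theorem ori_gen (l : List V) : ori (gen l) = orl l := lext_gen _ _

omit [Fintype V] in
theorem ori_lcons (v : V) (c : LC V) : ori (lcons v c) = cone v (ori c) :=
  lhom_eq (T := ori ∘ₗ lcons v) (T' := coneL v ∘ₗ ori)
    (fun l => by simp only [LinearMap.comp_apply, lcons_gen, ori_gen]; rfl) c

theorem ori_ld (c : LC V) : ori (ld c) = bdry (ori c) := by
  refine lhom_eq (T := ori ∘ₗ ld) (T' := bdryL ∘ₗ ori) (fun l => ?_) c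
  change ori (ld (gen l)) = bdry (ori (gen l))
  induction l with
  | nil =>
    ext τ
    simp [ld_gen, dl, ori_gen, bdry_apply, orl]
  | cons v l ih => rw [← lcons_gen, ld_lcons, map_sub, ori_lcons, ori_lcons, bdry_cone, ih]

omit [Fintype V] in
theorem orl_supp (l : List V) : ∀ σ, orl l σ ≠ 0 → (∀ v ∈ σ, v ∈ l) ∧ σ.card = l.length := by
  induction l with
  | nil =>
    intro σ h
    have : σ = ∅ := by by_contra hh; simp [orl, hh] at h
    simp [this]
  | cons v l ih =>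
    intro σ h
    simp only [orl, cone] at h
    split_ifs at h with hv
    · obtain ⟨h1, h2⟩ := ih (σ.erase v) fun hh => h (by rw [hh, smul_zero])
      refine ⟨fun w hw => ?_, by rw [List.length_cons, ← h2, card_erase_add_one hv]⟩
      by_cases hwv : w = v
      · simp [hwv]
      · exact List.mem_cons_of_mem _ (h1 w (mem_erase.mpr ⟨hwv, hw⟩))
    · exact absurd rfl h

omit [Fintype V] in
theorem orl_sort (σ : Finset V) : orl (σ.sort (· ≤ ·)) = fun τ => if τ = σ then 1 else 0 := by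
  induction σ using Finset.induction_on_min with
  | empty => simp [orl]
  | insert m σ hm ih =>
    have hmσ : m ∉ σ := fun h => lt_irrefl _ (hm m h)
    rw [sort_insert _ (fun b hb => (hm b hb).le) hmσ]
    ext τ
    simp only [orl, cone, ih]
    by_cases h : τ = insert m σ
    · subst h
      rw [if_pos (mem_insert_self m σ), erase_insert hmσ, if_pos rfl, if_pos rfl, sg,
        filter_false_of_mem fun w hw => (hm w hw).not_gt]
      simp
    · rw [if_neg h]
      split_ifs with h1 h2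
      · exact absurd (by rw [← h2, insert_erase h1]) h
      · simp
      · rfl

/-- the map from oriented chains to ordered chains -/
noncomputable def io : (Finset V → ℤ) →ₗ[ℤ] LC V where
  toFun c := ∑ σ, c σ • gen (σ.sort (· ≤ ·))
  map_add' c c' := by simp [add_smul, sum_add_distrib]
  map_smul' a c := by simp [smul_sum, mul_smul]

theorem io_apply (c : Finset V → ℤ) : io c = ∑ σ, c σ • gen (σ.sort (· ≤ ·)) := rfl

theorem ori_io (c : Finset V → ℤ) : ori (io c) = c := by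
  ext τ
  simp [io_apply, map_sum, ori_gen, orl_sort, Finset.sum_apply]

theorem io_mem {K : Set (Finset V)} {k : ℕ} {c : Finset V → ℤ} (hc : IsSimplChain K k c) :
    io c ∈ sp {l | ∃ σ ∈ K, σ.card = k ∧ l = σ.sort (· ≤ ·)} := by
  rw [io_apply]
  refine Submodule.sum_mem _ fun σ _ => ?_
  by_cases h : σ ∈ K ∧ σ.card = k
  · exact Submodule.smul_mem _ _ (gen_mem ⟨σ, h.1, h.2, rfl⟩)
  · rw [hc σ h, zero_smul]; exact zero_mem _

theorem ld_io {c : Finset V → ℤ} (hc : bdry c = 0) : ld (io c) = 0 := by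
  have h1 : ld (io c) ∈ sp {l : List V | l.Nodup ∧ l.Pairwise (· ≤ ·)} := by
    rw [io_apply, map_sum]
    refine Submodule.sum_mem _ fun σ _ => ?_
    rw [map_smul, ld_gen]
    refine Submodule.smul_mem _ _ (sp_mono ?_ (dl_mem _))
    rintro l ⟨h, _⟩
    exact ⟨(sort_nodup σ _).sublist h, (pairwise_sort σ _).sublist h⟩
  have h2 := eq_of_sp (io ∘ₗ ori) LinearMap.id (fun l hl => by
    have h3 : l.toFinset.sort (· ≤ ·) = l := (List.toFinset_sort _ hl.1).mpr hl.2
    rw [LinearMap.comp_apply, LinearMap.id_apply, ori_gen]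
    conv_lhs => rw [← h3, orl_sort]
    simp [io_apply, h3]) h1
  rw [LinearMap.comp_apply, ori_ld, ori_io, hc, map_zero] at h2
  exact h2.symm

/-- vertices as points -/
def vpt (v : V) : V → ℝ := Pi.single v 1

omit [LinearOrder V] in
theorem isCompact_realization (K : Set (Finset V)) : IsCompact (realization K) := by
  have : realization K = stdSimplex ℝ V ∩ ⋃ σ ∈ K, ⋂ v ∉ σ, {x | x v = 0} := by
    ext x
    simp [realization, stdSimplex, and_assoc]
  rw [this]
  refine (isCompact_stdSimplex ℝ V).inter_right ((Set.toFinite K).isClosed_biUnion fun σ _ => ?_)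
  exact isClosed_biInter fun v _ => isClosed_eq (continuous_apply v) continuous_const

theorem hull_sort {σ : Finset V} {x : V → ℝ} (hx : x ∈ hull ((σ.sort (· ≤ ·)).map vpt)) :
    (∀ v, 0 ≤ x v) ∧ ∑ v, x v = 1 ∧ ∀ v, v ∉ σ → x v = 0 := by
  have hconv : Convex ℝ {x : V → ℝ | (∀ v, 0 ≤ x v) ∧ ∑ v, x v = 1 ∧ ∀ v, v ∉ σ → x v = 0} := by
    intro x hx y hy a b ha hb hab
    refine ⟨fun v => ?_, ?_, fun v hv => ?_⟩
    · have := hx.1 v
      have := hy.1 v
      simp only [Pi.add_apply, Pi.smul_apply, smul_eq_mul]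
      positivity
    · simp [sum_add_distrib, ← mul_sum, hx.2.1, hy.2.1, hab]
    · simp [hx.2.2 v hv, hy.2.2 v hv]
  refine hull_subset hconv (fun y hy => ?_) hx
  obtain ⟨u, hu, rfl⟩ := List.mem_map.mp hy
  rw [mem_sort] at hu
  refine ⟨fun v => ?_, by simp [vpt], fun v hv => ?_⟩
  · simp only [vpt, Pi.single_apply]; split_ifs <;> norm_num
  · simp only [vpt, Pi.single_apply]
    rw [if_neg]; rintro rfl; exact hv hu

theorem absExact_of_retract [Nonempty V] {E : Type} [NormedAddCommGroup E] [NormedSpace ℝ E]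
    (K : Set (Finset V)) (hK : IsLowerSet K) (k : ℕ) (B O : Set E) (hB : IsCompact B)
    (hBc : Convex ℝ B) (hO : IsOpen O) (f : (V → ℝ) → E) (ψ : E → V → ℝ)
    (hf : ContinuousOn f (realization K)) (hfm : ∀ x ∈ realization K, f x ∈ B ∩ O)
    (hψ : ContinuousOn ψ (B ∩ O)) (hψm : ∀ y ∈ B ∩ O, ψ y ∈ realization K)
    (hψf : ∀ x ∈ realization K, ψ (f x) = x)
    (hq : ∀ F : Set (List E), F.Finite → (∀ l ∈ F, l.length = k ∧ hull l ⊆ B ∩ O) →
      ∃ q, ∀ l ∈ F, hull (q :: l) ⊆ B ∩ O) : AbsExact K k := by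
  intro z hz hz'
  -- the vertex map
  have hvtx : ∀ x : V → ℝ, ∃ v, ∀ w, x w ≤ x v := fun x => by
    obtain ⟨v, _, hv⟩ := exists_max_image univ x univ_nonempty
    exact ⟨v, fun w => hv w (mem_univ w)⟩
  choose vtx hvtx using hvtx
  have hN : (0 : ℝ) < Fintype.card V := by exact_mod_cast Fintype.card_pos
  set ε : ℝ := 1 / (2 * Fintype.card V) with hε
  have hε0 : 0 < ε := by positivity
  have hbig : ∀ x : V → ℝ, ∑ v, x v = 1 → 2 * ε ≤ x (vtx x) := fun x hx => by
    have h1 : ∑ v, x v ≤ Fintype.card V * x (vtx x) := by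
      have := sum_le_card_nsmul univ x (x (vtx x)) fun w _ => hvtx x w
      simpa using this
    rw [hx] at h1
    rw [hε, show 2 * (1 / (2 * (Fintype.card V : ℝ))) = 1 / Fintype.card V by field_simp,
      div_le_iff₀ hN]
    linarith
  have hvv : ∀ v, vtx (vpt v) = v := fun v => by
    have h1 := hbig (vpt v) (by simp [vpt])
    by_contra h
    simp only [vpt, Pi.single_apply] at h1 h
    rw [if_neg h] at h1
    linarith
  let Good : Set (List (V → ℝ)) := {l | l.length = k + 1 ∧ ∃ σ ∈ K, ∀ x ∈ l, vtx x ∈ σ}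
  have hGood : ∀ u ∈ sp Good, IsSimplChain K (k + 1) (ori (lmap vtx u)) := by
    intro u hu σ hσ
    refine map_mem_of_sp ((LinearMap.proj σ) ∘ₗ ori ∘ₗ lmap vtx) ⊥ ?_ hu
    rintro l ⟨h1, τ, hτ, h2⟩
    simp only [LinearMap.comp_apply, lmap_gen, ori_gen, LinearMap.proj_apply, Submodule.mem_bot]
    by_contra h
    obtain ⟨h3, h4⟩ := orl_supp _ σ h
    refine hσ ⟨hK (fun v hv => ?_) hτ, by rw [h4, List.length_map, h1]⟩
    obtain ⟨x, hx, rfl⟩ := List.mem_map.mp (h3 v hv)
    exact h2 x hx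
  have hGood1 : ∀ l : List (V → ℝ), l.length = k + 1 → (∀ x ∈ l, x ∈ realization K) → Fine ε l →
      l ∈ Good := by
    intro l h1 h2 h3
    obtain ⟨x, hx⟩ : ∃ x, x ∈ l := List.exists_mem_of_length_pos (by omega)
    obtain ⟨_, _, σ, hσ, hσ'⟩ := h2 x hx
    refine ⟨h1, σ, hσ, fun y hy => ?_⟩
    by_contra h
    have h4 := hbig y (h2 y hy).2.1
    have h5 := (dist_le_pi_dist y x (vtx y)).trans (h3 y hy x hx)
    rw [hσ' _ h, Real.dist_eq, sub_zero] at h5
    linarith [le_abs_self (y (vtx y))]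
  -- constants
  have hKc := isCompact_realization K
  have hfK : IsCompact (f '' realization K) := hKc.image_of_continuousOn hf
  obtain ⟨γ, hγ, hγO⟩ := hfK.exists_cthickening_subset_open hO (by
    rintro _ ⟨x, hx, rfl⟩; exact (hfm x hx).2)
  have hQ : IsCompact (B ∩ Metric.cthickening γ (f '' realization K)) :=
    hB.inter_right Metric.isClosed_cthickening
  have hQY : B ∩ Metric.cthickening γ (f '' realization K) ⊆ B ∩ O :=
    Set.inter_subset_inter_right _ hγO
  obtain ⟨δ₁, hδ₁, hδ₁'⟩ := Metric.uniformContinuousOn_iff_le.mp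
    (hQ.uniformContinuousOn_of_continuous (hψ.mono hQY)) ε hε0
  obtain ⟨δ, hδ, hδ'⟩ := Metric.uniformContinuousOn_iff_le.mp
    (hKc.uniformContinuousOn_of_continuous hf) (min δ₁ γ) (lt_min hδ₁ hγ)
  -- first subdivision
  obtain ⟨Sd, H, hSd, hH, hSd', hH'⟩ := exists_subdivision (E := V → ℝ) hδ k
  set z₀ := lmap vpt (io z) with hz₀
  have hz₀m : z₀ ∈ sp {l | ∃ σ ∈ K, σ.card = k ∧ l = (σ.sort (· ≤ ·)).map vpt} := by
    refine map_mem_of_sp _ _ ?_ (io_mem hz)
    rintro l ⟨σ, h1, h2, rfl⟩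
    rw [lmap_gen]
    exact gen_mem ⟨σ, h1, h2, rfl⟩
  have hz₀c : ld z₀ = 0 := by rw [hz₀, ld_lmap, ld_io hz', map_zero]
  have hz₀l : z₀ ∈ sp {l : List (V → ℝ) | l.length ≤ k} := by
    refine sp_mono ?_ hz₀m
    rintro l ⟨σ, _, h2, rfl⟩
    simp [h2]
  have hz₁m : Sd z₀ ∈ sp {l | l.length = k ∧ (∀ x ∈ l, x ∈ realization K) ∧ Fine δ l} := by
    refine map_mem_of_sp _ _ ?_ hz₀m
    rintro l ⟨σ, h1, h2, rfl⟩
    refine sp_mono ?_ (hSd' _ (by simp [h2]))
    rintro l' ⟨h3, h4, h5⟩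
    refine ⟨by simpa [h2] using h3, fun x hx => ?_, h5⟩
    obtain ⟨a, b, c⟩ := hull_sort (h4 x hx)
    exact ⟨a, b, σ, h1, c⟩
  have hz₁c : ld (Sd z₀) = 0 := by rw [hSd _ hz₀l, hz₀c, map_zero]
  have hHz₀ : H z₀ ∈ sp Good := by
    refine map_mem_of_sp _ _ ?_ hz₀m
    rintro l ⟨σ, h1, h2, rfl⟩
    refine sp_mono ?_ (hH' _ (by simp [h2]))
    rintro l' ⟨h3, h4⟩
    refine ⟨by simpa [h2] using h3, σ, h1, fun x hx => ?_⟩
    obtain ⟨a, b, c⟩ := hull_sort (h4 x hx)
    by_contra h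
    have := hbig x b
    rw [c _ h] at this
    linarith
  have hHz₀' : ld (H z₀) = Sd z₀ - z₀ := by
    have := hH _ hz₀l
    rwa [hz₀c, map_zero, add_zero] at this
  -- push forward
  set w := lmap f (Sd z₀) with hw
  have hwm : w ∈ sp {l | l.length = k ∧ hull l ⊆ B ∩ Metric.cthickening γ (f '' realization K) ∧
      Fine δ₁ l} := by
    refine map_mem_of_sp _ _ ?_ hz₁m
    rintro l ⟨h1, h2, h3⟩
    rw [lmap_gen]
    have h4 : Fine (min δ₁ γ) (l.map f) := by
      intro a ha b hb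
      obtain ⟨x, hx, rfl⟩ := List.mem_map.mp ha
      obtain ⟨y, hy, rfl⟩ := List.mem_map.mp hb
      exact hδ' x (h2 x hx) y (h2 y hy) (h3 x hx y hy)
    refine gen_mem ⟨by simp [h1], fun y hy => ⟨hull_subset hBc (fun a ha => ?_) hy, ?_⟩,
      fun a ha b hb => (h4 a ha b hb).trans (min_le_left _ _)⟩
    · obtain ⟨x, hx, rfl⟩ := List.mem_map.mp ha
      exact (hfm x (h2 x hx)).1
    · obtain ⟨a, ha⟩ : ∃ a, a ∈ l.map f := convexHull_nonempty_iff.mp ⟨y, hy⟩
      obtain ⟨x, hx, rfl⟩ := List.mem_map.mp ha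
      exact Metric.mem_cthickening_of_dist_le y (f x) γ _ ⟨x, h2 x hx, rfl⟩
        ((dist_le_of_hull h4 hy (mem_hull ha)).trans (min_le_right _ _))
  have hwc : ld w = 0 := by rw [hw, ld_lmap, hz₁c, map_zero]
  obtain ⟨F, hF, hFS, hwF⟩ := exists_finite_sp hwm
  obtain ⟨q, hqF⟩ := hq F hF fun l hl => ⟨(hFS hl).1, (hFS hl).2.1.trans hQY⟩
  have hQ' : IsCompact (⋃ l ∈ F, hull (q :: l)) := hF.isCompact_biUnion fun l _ => isCompact_hull _
  have hQ'Y : (⋃ l ∈ F, hull (q :: l)) ⊆ B ∩ O := Set.iUnion₂_subset hqF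
  obtain ⟨η, hη, hη'⟩ := Metric.uniformContinuousOn_iff_le.mp
    (hQ'.uniformContinuousOn_of_continuous (hψ.mono hQ'Y)) ε hε0
  obtain ⟨Sd', H', hSd2, hH2, hSd2', hH2'⟩ := exists_subdivision (E := E) hη (k + 1)
  have hcl : lcons q w ∈ sp {l : List E | l.length ≤ k + 1} := by
    refine map_mem_of_sp _ _ ?_ hwm
    rintro l ⟨h1, _⟩
    rw [lcons_gen]
    exact gen_mem (by simp [h1])
  have hwl : w ∈ sp {l : List E | l.length ≤ k + 1} :=
    sp_mono (fun l hl => by have := hl.1; simp only [Set.mem_ofPred_eq]; omega) hwm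
  have e1 : ld (Sd' (lcons q w) - H' w) = w := by
    have h1 := hH2 w hwl
    rw [hwc, map_zero, add_zero] at h1
    rw [map_sub, hSd2 _ hcl, ld_lcons, hwc, map_zero, sub_zero, h1, sub_sub_cancel]
  have e2 : lmap ψ (Sd' (lcons q w) - H' w) ∈ sp Good := by
    rw [map_sub]
    refine sub_mem (map_mem_of_sp (lmap ψ ∘ₗ Sd' ∘ₗ lcons q) _ ?_ hwF)
      (map_mem_of_sp (lmap ψ ∘ₗ H') _ ?_ hwm)
    · intro l hl
      simp only [LinearMap.comp_apply, lcons_gen]
      refine map_mem_of_sp _ _ ?_ (hSd2' (q :: l) (by simp [(hFS hl).1]))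
      rintro l' ⟨h1, h2, h3⟩
      rw [lmap_gen]
      have h4 : ∀ x ∈ l', x ∈ ⋃ l ∈ F, hull (q :: l) := fun x hx => Set.mem_biUnion hl (h2 x hx)
      refine gen_mem (hGood1 _ (by simp [h1, (hFS hl).1]) (fun a ha => ?_) fun a ha b hb => ?_)
      · obtain ⟨x, hx, rfl⟩ := List.mem_map.mp ha
        exact hψm x (hQ'Y (h4 x hx))
      · obtain ⟨x, hx, rfl⟩ := List.mem_map.mp ha
        obtain ⟨y, hy, rfl⟩ := List.mem_map.mp hb
        exact hη' x (h4 x hx) y (h4 y hy) (h3 x hx y hy)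
    · rintro l ⟨h5, h6, h7⟩
      simp only [LinearMap.comp_apply]
      refine map_mem_of_sp _ _ ?_ (hH2' l (by omega))
      rintro l' ⟨h1, h2⟩
      rw [lmap_gen]
      refine gen_mem (hGood1 _ (by simp [h1, h5]) (fun a ha => ?_) fun a ha b hb => ?_)
      · obtain ⟨x, hx, rfl⟩ := List.mem_map.mp ha
        exact hψm x (hQY (h6 (h2 x hx)))
      · obtain ⟨x, hx, rfl⟩ := List.mem_map.mp ha
        obtain ⟨y, hy, rfl⟩ := List.mem_map.mp hb
        exact hδ₁' x (h6 (h2 x hx)) y (h6 (h2 y hy)) (dist_le_of_hull h7 (h2 x hx) (h2 y hy))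
  have e3 : lmap ψ w = Sd z₀ := by
    rw [hw, lmap_lmap]
    exact lmap_eq_self _ (fun l hl x hx => hψf x (hl.2.1 x hx)) hz₁m
  refine ⟨_, hGood _ (sub_mem e2 hHz₀), ?_⟩
  rw [← ori_ld, ld_lmap, map_sub, ld_lmap, e1, e3, hHz₀', sub_sub_cancel, hz₀, lmap_lmap,
    lmap_eq_self (S := Set.univ) (vtx ∘ vpt) (fun _ _ v _ => hvv v) (Set.subset_univ _), ori_io]

end Pool.Agent.P.MP_eb2ab9_co
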